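import Pool.Agent.Lib.MP_28303a_al.WR.Mc
import Pool.Agent.Lib.MP_28303a_al.NK.FPRes

/-! # Nilpotent endomorphisms of modules with finite resolutions

`χ` is a determinant on invertible matrices over `B`.  `Phi χ θ g`: `Y` is a retract of a finitely
generated free module and `χ (1 - θ) = g`.  `ZC χ n θ`: the pair `(Y, θ)` has a resolution of length
`n` by pairs of class `0`. -/

set_option autoImplicit false
set_option linter.unusedSectionVars false

namespace Pool.Agent.NegK.TTZ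

universe u v w

open Matrix

/-! ### The matrix of a linear map between free modules (rows) -/

section mt

variable {B : Type u} [Ring B] {ι κ l : Type} [Fintype ι] [DecidableEq ι] [Fintype κ]
  [DecidableEq κ] [Fintype l] [DecidableEq l]

/-- The matrix of a linear map between free modules, `f x = x ᵥ* mt f`. -/
def mt (f : (ι → B) →ₗ[B] (κ → B)) : Matrix ι κ B := fun i j => f (Pi.single i 1) j

theorem vecMul_mt (f : (ι → B) →ₗ[B] (κ → B)) (x : ι → B) : x ᵥ* mt f = f x := by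
  have h : x = ∑ i, x i • (Pi.single i (1 : B) : ι → B) := by
    funext j
    rw [Finset.sum_apply, Finset.sum_eq_single j]
    · rw [Pi.smul_apply, Pi.single_eq_same, smul_eq_mul, mul_one]
    · intro b _ hb
      rw [Pi.smul_apply, Pi.single_eq_of_ne (Ne.symm hb), smul_zero]
    · intro h
      exact absurd (Finset.mem_univ j) h
  conv_rhs => rw [h, map_sum]
  funext j
  rw [Finset.sum_apply]
  refine Finset.sum_congr rfl fun i _ => ?_
  rw [map_smul]
  rfl

theorem mt_eq {f : (ι → B) →ₗ[B] (κ → B)} {M : Matrix ι κ B} (h : ∀ x, f x = x ᵥ* M) :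
    mt f = M := by
  ext1 i j
  show f (Pi.single i 1) j = M i j
  rw [h, Matrix.single_one_vecMul]
  rfl

theorem mt_comp (f : (ι → B) →ₗ[B] (κ → B)) (g : (κ → B) →ₗ[B] (l → B)) :
    mt (g ∘ₗ f) = mt f * mt g := by
  refine mt_eq fun x => ?_
  rw [← Matrix.vecMul_vecMul, vecMul_mt, vecMul_mt]
  rfl

theorem mt_id : mt (LinearMap.id : (ι → B) →ₗ[B] (ι → B)) = 1 :=
  mt_eq fun x => (Matrix.vecMul_one x).symm

theorem mt_pow (f : (ι → B) →ₗ[B] (ι → B)) (n : ℕ) : mt (f ^ n) = mt f ^ n := by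
  induction n with
  | zero => rw [pow_zero, pow_zero]; exact mt_id
  | succ n ih =>
    rw [pow_succ, pow_succ', ← ih]
    exact mt_comp f (f ^ n)

theorem mt_zero : mt (0 : (ι → B) →ₗ[B] (κ → B)) = 0 :=
  mt_eq fun x => (Matrix.vecMul_zero x).symm

end mt

/-! ### Lemmas on determinants -/

section det

variable {B : Type u} [Ring B] {G : Type v} [AddCommGroup G] (χ : Det1 B G)
variable {ι κ : Type} [Fintype ι] [DecidableEq ι] [Fintype κ] [DecidableEq κ]

theorem isUnit_lowerTri {a : Matrix ι ι B} {b : Matrix κ κ B} (ha : IsUnit a) (hb : IsUnit b)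
    (x : Matrix κ ι B) : IsUnit (fromBlocks a 0 x b) := by
  obtain ⟨a', h1, h2⟩ := exists_inv ha
  obtain ⟨b', h3, h4⟩ := exists_inv hb
  refine isUnit_of_mul (β := fromBlocks a' 0 (-(b' * x * a')) b') ?_ ?_
  · rw [Matrix.fromBlocks_multiply, ← Matrix.fromBlocks_one]
    congr 1
    · simp [h1]
    · simp
    · rw [Matrix.mul_neg, ← Matrix.mul_assoc, ← Matrix.mul_assoc, h3, Matrix.one_mul]
      simp
    · simp [h3]
  · rw [Matrix.fromBlocks_multiply, ← Matrix.fromBlocks_one]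
    congr 1
    · simp [h2]
    · simp
    · rw [Matrix.neg_mul, Matrix.mul_assoc, h2, Matrix.mul_one]
      simp
    · simp [h4]

theorem val_lowerTri {a : Matrix ι ι B} {b : Matrix κ κ B} (ha : IsUnit a) (hb : IsUnit b)
    (x : Matrix κ ι B) : χ.val (fromBlocks a 0 x b) = χ.val a + χ.val b := by
  obtain ⟨a', h1, h2⟩ := exists_inv ha
  have e : fromBlocks a 0 x b = fromBlocks 1 0 (x * a') 1 * fromBlocks a 0 0 b := by
    rw [Matrix.fromBlocks_multiply]
    congr 1
    · simp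
    · simp
    · rw [Matrix.mul_assoc, h2]
      simp
    · simp
  rw [e, χ.mul _ _ (isUnit_lower _) (isUnit_blocks ha hb), χ.lower, zero_add, χ.blocks _ _ ha hb]

theorem one_sub_swap {X : Matrix ι κ B} {Y : Matrix κ ι B} (h : IsUnit (1 - X * Y)) :
    χ.val (1 - Y * X) = χ.val (1 - X * Y) := by
  have h' : IsUnit (1 + X * (-Y)) := by
    rwa [Matrix.mul_neg, ← sub_eq_add_neg]
  have h2 := χ.one_add_swap h'
  rwa [Matrix.mul_neg, Matrix.neg_mul, ← sub_eq_add_neg, ← sub_eq_add_neg] at h2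

end det

/-! ### Finitely generated projective modules with nilpotent endomorphisms -/

section phi

variable {B : Type u} [Ring B] {G : Type v} [AddCommGroup G] (χ : Det1 B G)
variable {Y : Type u} [AddCommGroup Y] [Module B Y]

/-- `χ (1 - θ) = g`, for a nilpotent endomorphism `θ` of a retract `Y` of a free module. -/
def Phi (θ : Y →ₗ[B] Y) (g : G) : Prop :=
  ∃ (ι : Type) (_ : Fintype ι) (_ : DecidableEq ι) (i : Y →ₗ[B] (ι → B))
    (π : (ι → B) →ₗ[B] Y), π ∘ₗ i = LinearMap.id ∧ IsNilpotent θ ∧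
      χ.val (1 - mt (i ∘ₗ θ ∘ₗ π)) = g

variable {χ}

theorem retract_pow {ι : Type} [Fintype ι] [DecidableEq ι] {i : Y →ₗ[B] (ι → B)}
    {π : (ι → B) →ₗ[B] Y} (h : π ∘ₗ i = LinearMap.id) (θ : Y →ₗ[B] Y) (n : ℕ) :
    (i ∘ₗ θ ∘ₗ π) ^ (n + 1) = i ∘ₗ (θ ^ (n + 1)) ∘ₗ π := by
  induction n with
  | zero => rw [zero_add, pow_one, pow_one]
  | succ n ih =>
    rw [pow_succ, ih, pow_succ θ (n + 1)]
    refine LinearMap.ext fun x => ?_
    have h1 : ∀ y, π (i y) = y := fun y => LinearMap.congr_fun h y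
    show i ((θ ^ (n + 1)) (π (i (θ (π x))))) = i ((θ ^ (n + 1)) (θ (π x)))
    rw [h1]

theorem nil_mt {ι : Type} [Fintype ι] [DecidableEq ι] {i : Y →ₗ[B] (ι → B)}
    {π : (ι → B) →ₗ[B] Y} (h : π ∘ₗ i = LinearMap.id) {θ : Y →ₗ[B] Y} (hθ : IsNilpotent θ) :
    IsNilpotent (mt (i ∘ₗ θ ∘ₗ π)) := by
  obtain ⟨n, hn⟩ := hθ
  refine ⟨n + 1, ?_⟩
  rw [← mt_pow, retract_pow h, pow_succ, hn, zero_mul]
  have : i ∘ₗ (0 : Y →ₗ[B] Y) ∘ₗ π = 0 := by
    refine LinearMap.ext fun x => ?_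
    show i 0 = 0
    exact map_zero i
  rw [this, mt_zero]

/-- The value does not depend on the choices. -/
theorem Phi.unique {θ : Y →ₗ[B] Y} {g g' : G} (h : Phi χ θ g) (h' : Phi χ θ g') : g = g' := by
  obtain ⟨ι, _, _, i, π, h1, h2, rfl⟩ := h
  obtain ⟨κ, _, _, j, ρ, h3, h4, rfl⟩ := h'
  have e1 : i ∘ₗ θ ∘ₗ π = (i ∘ₗ θ ∘ₗ ρ) ∘ₗ (j ∘ₗ π) := by
    refine LinearMap.ext fun x => ?_
    show i (θ (π x)) = i (θ (ρ (j (π x))))
    rw [show ρ (j (π x)) = π x from LinearMap.congr_fun h3 (π x)]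
  have e2 : j ∘ₗ θ ∘ₗ ρ = (j ∘ₗ π) ∘ₗ (i ∘ₗ θ ∘ₗ ρ) := by
    refine LinearMap.ext fun x => ?_
    show j (θ (ρ x)) = j (π (i (θ (ρ x))))
    rw [show π (i (θ (ρ x))) = θ (ρ x) from LinearMap.congr_fun h1 (θ (ρ x))]
  have h5 : IsUnit (1 - mt (i ∘ₗ θ ∘ₗ π)) := (nil_mt h1 h2).isUnit_one_sub
  rw [e1, mt_comp] at h5
  rw [e1, mt_comp, e2, mt_comp]
  exact (one_sub_swap χ h5).symm

theorem Phi.exists (h1 : Module.Finite B Y) (h2 : Module.Projective B Y) (θ : Y →ₗ[B] Y)
    (hθ : IsNilpotent θ) : ∃ g, Phi χ θ g := by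
  obtain ⟨n, f, hf⟩ := Module.Finite.exists_fin' B Y
  obtain ⟨s, hs⟩ := Module.projective_lifting_property f LinearMap.id hf
  exact ⟨_, Fin n, inferInstance, inferInstance, s, f, hs, hθ, rfl⟩

theorem Phi.finite {θ : Y →ₗ[B] Y} {g : G} (h : Phi χ θ g) : Module.Finite B Y := by
  obtain ⟨ι, _, _, i, π, h1, -, -⟩ := h
  exact Module.Finite.of_surjective π fun y => ⟨i y, LinearMap.congr_fun h1 y⟩

theorem Phi.projective {θ : Y →ₗ[B] Y} {g : G} (h : Phi χ θ g) : Module.Projective B Y := by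
  obtain ⟨ι, _, _, i, π, h1, -, -⟩ := h
  exact Module.Projective.of_split i π h1

theorem Phi.nil {θ : Y →ₗ[B] Y} {g : G} (h : Phi χ θ g) : IsNilpotent θ := by
  obtain ⟨ι, _, _, i, π, -, h1, -⟩ := h
  exact h1

/-- Isomorphic pairs. -/
theorem Phi.congr {Y' : Type u} [AddCommGroup Y'] [Module B Y'] (e : Y ≃ₗ[B] Y') {θ : Y →ₗ[B] Y}
    {θ' : Y' →ₗ[B] Y'} (he : ∀ y, e (θ y) = θ' (e y)) {g : G} (h : Phi χ θ g) : Phi χ θ' g := by
  obtain ⟨ι, hι, hι', i, π, h1, ⟨n, hn⟩, h3⟩ := h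
  have h1' : ∀ y, π (i y) = y := fun y => LinearMap.congr_fun h1 y
  have hpow : ∀ (m : ℕ) (y : Y), e ((θ ^ m) y) = (θ' ^ m) (e y) := by
    intro m
    induction m with
    | zero => intro y; rfl
    | succ m ih =>
      intro y
      rw [pow_succ, pow_succ]
      show e ((θ ^ m) (θ y)) = (θ' ^ m) (θ' (e y))
      rw [ih, he]
  refine ⟨ι, hι, hι', i ∘ₗ e.symm.toLinearMap, e.toLinearMap ∘ₗ π, ?_, ⟨n, ?_⟩, ?_⟩
  · refine LinearMap.ext fun y => ?_
    show e (π (i (e.symm y))) = y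
    rw [h1', e.apply_symm_apply]
  · refine LinearMap.ext fun y => ?_
    have h4 := hpow n (e.symm y)
    rw [hn, e.apply_symm_apply] at h4
    rw [← h4]
    exact map_zero e
  · rw [← h3]
    congr 3
    refine LinearMap.ext fun x => ?_
    show i (e.symm (θ' (e (π x)))) = i (θ (π x))
    rw [← he, e.symm_apply_apply]

/-- Free modules. -/
theorem Phi.free {ι : Type} [Fintype ι] [DecidableEq ι] {θ : (ι → B) →ₗ[B] (ι → B)}
    {N : Matrix ι ι B} (hN : IsNilpotent N) (h : ∀ x, θ x = x ᵥ* N) : Phi χ θ (χ.val (1 - N)) := by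
  refine ⟨ι, inferInstance, inferInstance, LinearMap.id, LinearMap.id, rfl, ?_, ?_⟩
  · obtain ⟨n, hn⟩ := hN
    refine ⟨n, LinearMap.ext fun x => ?_⟩
    rw [← vecMul_mt, mt_pow, mt_eq h, hn, Matrix.vecMul_zero]
    rfl
  · rw [mt_eq (f := LinearMap.id ∘ₗ θ ∘ₗ LinearMap.id) (M := N) (fun x => h x)]

/-- Nilpotency of extensions. -/
theorem nil_ext {Y' Y'' : Type u} [AddCommGroup Y'] [Module B Y'] [AddCommGroup Y'']
    [Module B Y''] {θ' : Y' →ₗ[B] Y'} {θ : Y →ₗ[B] Y} {θ'' : Y'' →ₗ[B] Y''} {j : Y' →ₗ[B] Y}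
    {q : Y →ₗ[B] Y''} (hex : ∀ y, q y = 0 → ∃ y', j y' = y)
    (hj : ∀ y', j (θ' y') = θ (j y')) (hq : ∀ y, q (θ y) = θ'' (q y)) (h' : IsNilpotent θ')
    (h'' : IsNilpotent θ'') : IsNilpotent θ := by
  obtain ⟨a, ha⟩ := h'
  obtain ⟨b, hb⟩ := h''
  have hjp : ∀ (m : ℕ) (y : Y'), j ((θ' ^ m) y) = (θ ^ m) (j y) := by
    intro m
    induction m with
    | zero => intro y; rfl
    | succ m ih =>
      intro y
      rw [pow_succ, pow_succ]
      show j ((θ' ^ m) (θ' y)) = (θ ^ m) (θ (j y))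
      rw [ih, hj]
  have hqp : ∀ (m : ℕ) (y : Y), q ((θ ^ m) y) = (θ'' ^ m) (q y) := by
    intro m
    induction m with
    | zero => intro y; rfl
    | succ m ih =>
      intro y
      rw [pow_succ, pow_succ]
      show q ((θ ^ m) (θ y)) = (θ'' ^ m) (θ'' (q y))
      rw [ih, hq]
  refine ⟨a + b, LinearMap.ext fun y => ?_⟩
  obtain ⟨y', hy'⟩ := hex ((θ ^ b) y) (by rw [hqp, hb]; rfl)
  rw [pow_add]
  show (θ ^ a) ((θ ^ b) y) = 0
  rw [← hy', ← hjp, ha]
  exact map_zero j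

theorem nil_sub {Y' : Type u} [AddCommGroup Y'] [Module B Y'] {θ' : Y' →ₗ[B] Y'} {θ : Y →ₗ[B] Y}
    {j : Y' →ₗ[B] Y} (hji : Function.Injective j) (hj : ∀ y', j (θ' y') = θ (j y'))
    (h : IsNilpotent θ) : IsNilpotent θ' := by
  obtain ⟨a, ha⟩ := h
  have hjp : ∀ (m : ℕ) (y : Y'), j ((θ' ^ m) y) = (θ ^ m) (j y) := by
    intro m
    induction m with
    | zero => intro y; rfl
    | succ m ih =>
      intro y
      rw [pow_succ, pow_succ]
      show j ((θ' ^ m) (θ' y)) = (θ ^ m) (θ (j y))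
      rw [ih, hj]
  refine ⟨a, LinearMap.ext fun y => hji ?_⟩
  rw [hjp, ha]
  exact (map_zero j).symm

theorem nil_quot {Y'' : Type u} [AddCommGroup Y''] [Module B Y''] {θ : Y →ₗ[B] Y}
    {θ'' : Y'' →ₗ[B] Y''} {q : Y →ₗ[B] Y''} (hqs : Function.Surjective q)
    (hq : ∀ y, q (θ y) = θ'' (q y)) (h : IsNilpotent θ) : IsNilpotent θ'' := by
  obtain ⟨b, hb⟩ := h
  have hqp : ∀ (m : ℕ) (y : Y), q ((θ ^ m) y) = (θ'' ^ m) (q y) := by
    intro m
    induction m with
    | zero => intro y; rfl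
    | succ m ih =>
      intro y
      rw [pow_succ, pow_succ]
      show q ((θ ^ m) (θ y)) = (θ'' ^ m) (θ'' (q y))
      rw [ih, hq]
  refine ⟨b, LinearMap.ext fun y => ?_⟩
  obtain ⟨x, rfl⟩ := hqs y
  rw [← hqp, hb]
  exact map_zero q

/-- Additivity on short exact sequences. -/
theorem Phi.add {Y' Y'' : Type u} [AddCommGroup Y'] [Module B Y'] [AddCommGroup Y'']
    [Module B Y''] {θ' : Y' →ₗ[B] Y'} {θ : Y →ₗ[B] Y} {θ'' : Y'' →ₗ[B] Y''} (j : Y' →ₗ[B] Y)
    (q : Y →ₗ[B] Y'') (hji : Function.Injective j) (hqs : Function.Surjective q)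
    (hex : ∀ y, q y = 0 ↔ ∃ y', j y' = y)
    (hj : ∀ y', j (θ' y') = θ (j y')) (hq : ∀ y, q (θ y) = θ'' (q y)) {g' g'' : G}
    (h' : Phi χ θ' g') (h'' : Phi χ θ'' g'') : Phi χ θ (g' + g'') := by
  have hp := h''.projective
  have hnil := nil_ext (fun y hy => (hex y).1 hy) hj hq h'.nil h''.nil
  obtain ⟨ι, _, _, i', π', a1, a2, rfl⟩ := h'
  obtain ⟨κ, _, _, i'', π'', b1, b2, rfl⟩ := h''
  have a1' : ∀ y, π' (i' y) = y := fun y => LinearMap.congr_fun a1 y
  have b1' : ∀ y, π'' (i'' y) = y := fun y => LinearMap.congr_fun b1 y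
  obtain ⟨s, hs⟩ := Module.projective_lifting_property q LinearMap.id hqs
  have hs' : ∀ y, q (s y) = y := fun y => LinearMap.congr_fun hs y
  have hqj : ∀ y, q (j y) = 0 := fun y => (hex _).2 ⟨y, rfl⟩
  -- the retraction
  have hr : ∀ y, ∃ y', j y' = y - s (q y) := fun y =>
    (hex _).1 (by rw [map_sub, hs', sub_self])
  choose ρ hρ using hr
  let ρl : Y →ₗ[B] Y' :=
    { toFun := ρ
      map_add' := fun x y => hji (by
        rw [map_add, hρ, hρ, hρ, map_add, map_add]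
        abel)
      map_smul' := fun c x => hji (by
        rw [RingHom.id_apply, map_smul, hρ, hρ, map_smul, map_smul, smul_sub]) }
  have hρl : ∀ y, j (ρl y) = y - s (q y) := hρ
  have hρj : ∀ y, ρl (j y) = y := fun y => hji (by rw [hρl, hqj, map_zero, sub_zero])
  have hρs : ∀ y, ρl (s y) = 0 := fun y => hji (by rw [hρl, hs', sub_self, map_zero])
  have hsum : ∀ y, j (ρl y) + s (q y) = y := fun y => by rw [hρl, sub_add_cancel]
  -- the retract data of `Y`
  let I : Y →ₗ[B] (ι ⊕ κ → B) :=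
    { toFun := fun y => Sum.elim (i' (ρl y)) (i'' (q y))
      map_add' := fun x y => by
        funext z
        rcases z with z | z
        · show i' (ρl (x + y)) z = i' (ρl x) z + i' (ρl y) z
          rw [map_add, map_add]; rfl
        · show i'' (q (x + y)) z = i'' (q x) z + i'' (q y) z
          rw [map_add, map_add]; rfl
      map_smul' := fun c x => by
        funext z
        rcases z with z | z
        · show i' (ρl (c • x)) z = c • i' (ρl x) z
          rw [map_smul, map_smul]; rfl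
        · show i'' (q (c • x)) z = c • i'' (q x) z
          rw [map_smul, map_smul]; rfl }
  let P : (ι ⊕ κ → B) →ₗ[B] Y :=
    { toFun := fun x => j (π' (x ∘ Sum.inl)) + s (π'' (x ∘ Sum.inr))
      map_add' := fun x y => by
        have e1 : (x + y) ∘ (Sum.inl : ι → ι ⊕ κ) = x ∘ Sum.inl + y ∘ Sum.inl := rfl
        have e2 : (x + y) ∘ (Sum.inr : κ → ι ⊕ κ) = x ∘ Sum.inr + y ∘ Sum.inr := rfl
        rw [e1, e2, map_add, map_add, map_add, map_add]
        abel
      map_smul' := fun c x => by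
        have e1 : (c • x) ∘ (Sum.inl : ι → ι ⊕ κ) = c • (x ∘ Sum.inl) := rfl
        have e2 : (c • x) ∘ (Sum.inr : κ → ι ⊕ κ) = c • (x ∘ Sum.inr) := rfl
        rw [e1, e2, RingHom.id_apply, map_smul, map_smul, map_smul, map_smul, smul_add] }
  refine ⟨ι ⊕ κ, inferInstance, inferInstance, I, P, ?_, hnil, ?_⟩
  · refine LinearMap.ext fun y => ?_
    show j (π' ((Sum.elim (i' (ρl y)) (i'' (q y))) ∘ Sum.inl)) +
      s (π'' ((Sum.elim (i' (ρl y)) (i'' (q y))) ∘ Sum.inr)) = y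
    rw [Sum.elim_comp_inl, Sum.elim_comp_inr, a1', b1', hsum]
  · let X : Matrix κ ι B := mt (i' ∘ₗ ρl ∘ₗ θ ∘ₗ s ∘ₗ π'')
    have key : mt (I ∘ₗ θ ∘ₗ P) =
        fromBlocks (mt (i' ∘ₗ θ' ∘ₗ π')) 0 X (mt (i'' ∘ₗ θ'' ∘ₗ π'')) := by
      refine mt_eq fun x => ?_
      have hx : x = Sum.elim (x ∘ Sum.inl) (x ∘ Sum.inr) := (Sum.elim_comp_inl_inr x).symm
      conv_rhs => rw [hx]
      rw [Matrix.vecMul_fromBlocks, Matrix.vecMul_zero, zero_add, vecMul_mt, vecMul_mt, vecMul_mt]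
      show Sum.elim (i' (ρl (θ (j (π' (x ∘ Sum.inl)) + s (π'' (x ∘ Sum.inr))))))
        (i'' (q (θ (j (π' (x ∘ Sum.inl)) + s (π'' (x ∘ Sum.inr)))))) = _
      congr 1
      · rw [map_add, map_add, map_add, ← hj, hρj]
        rfl
      · rw [map_add, map_add, map_add, ← hj, hqj, map_zero, zero_add, hq, hs']
        rfl
    have e : (1 : Matrix (ι ⊕ κ) (ι ⊕ κ) B) - mt (I ∘ₗ θ ∘ₗ P) =
        fromBlocks (1 - mt (i' ∘ₗ θ' ∘ₗ π')) 0 (-X) (1 - mt (i'' ∘ₗ θ'' ∘ₗ π'')) := by
      rw [key, ← Matrix.fromBlocks_one, sub_eq_add_neg, Matrix.fromBlocks_neg,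
        Matrix.fromBlocks_add]
      congr 1
      · rw [sub_eq_add_neg]
      · rw [neg_zero, add_zero]
      · rw [zero_add]
      · rw [sub_eq_add_neg]
    rw [e]
    exact val_lowerTri χ (nil_mt a1 a2).isUnit_one_sub (nil_mt b1 b2).isUnit_one_sub _

end phi

/-! ### The classes `ZC n` -/

section zc

variable {B : Type u} [Ring B] {G : Type v} [AddCommGroup G]

/-- The pair `(Y, θ)` has a resolution of length `n` by pairs with `χ = 0`. -/
def ZC (χ : Det1 B G) : ℕ → {Y : Type u} → [AddCommGroup Y] → [Module B Y] →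
    (Y →ₗ[B] Y) → Prop
  | 0, _, _, _, θ => Phi χ θ 0
  | n + 1, Y, _, _, θ => ∃ (ι : Type) (_ : Fintype ι) (_ : DecidableEq ι) (N : Matrix ι ι B)
      (p : (ι → B) →ₗ[B] Y) (θK : LinearMap.ker p →ₗ[B] LinearMap.ker p), IsNilpotent N ∧
      χ.val (1 - N) = 0 ∧ Function.Surjective p ∧ (∀ x, p (x ᵥ* N) = θ (p x)) ∧
      (∀ x : LinearMap.ker p, ((θK x : ι → B)) = (x : ι → B) ᵥ* N) ∧ ZC χ n θK

variable {χ : Det1 B G}

/-- Isomorphic pairs. -/
theorem ZC.congr (n : ℕ) : ∀ {Y Y' : Type u} [AddCommGroup Y] [Module B Y] [AddCommGroup Y']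
    [Module B Y'] (e : Y ≃ₗ[B] Y') {θ : Y →ₗ[B] Y} {θ' : Y' →ₗ[B] Y'},
    (∀ y, e (θ y) = θ' (e y)) → ZC χ n θ → ZC χ n θ' := by
  induction n with
  | zero => intro Y Y' _ _ _ _ e θ θ' he h; exact Phi.congr e he h
  | succ n ih =>
    intro Y Y' _ _ _ _ e θ θ' he h
    obtain ⟨ι, hι, hι', N, p, θK, h1, h2, h3, h4, h5, h6⟩ := h
    have hk : ∀ x, x ∈ LinearMap.ker p ↔ x ∈ LinearMap.ker (e.toLinearMap ∘ₗ p) := by
      intro x
      rw [LinearMap.mem_ker, LinearMap.mem_ker]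
      show p x = 0 ↔ e (p x) = 0
      rw [e.map_eq_zero_iff]
    have hk' : LinearMap.ker p = LinearMap.ker (e.toLinearMap ∘ₗ p) := by
      ext x
      exact hk x
    let E := LinearEquiv.ofEq _ _ hk'
    refine ⟨ι, hι, hι', N, e.toLinearMap ∘ₗ p, E.toLinearMap ∘ₗ θK ∘ₗ E.symm.toLinearMap, h1, h2,
      e.surjective.comp h3, fun x => ?_, fun x => ?_, ?_⟩
    · show e (p (x ᵥ* N)) = θ' (e (p x))
      rw [h4, he]
    · show ((θK (E.symm x) : LinearMap.ker p) : ι → B) = _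
      rw [h5]
      rfl
    · refine ih E (fun y => ?_) h6
      show E (θK y) = E (θK (E.symm (E y)))
      rw [E.symm_apply_apply]

theorem ZC.nil (n : ℕ) {Y : Type u} [AddCommGroup Y] [Module B Y] {θ : Y →ₗ[B] Y}
    (h : ZC χ n θ) : IsNilpotent θ := by
  cases n with
  | zero => exact Phi.nil h
  | succ n =>
    obtain ⟨ι, hι, hι', N, p, θK, h1, h2, h3, h4, h5, h6⟩ := h
    refine nil_quot (θ := N.vecMulLinear) h3 (fun x => h4 x) ?_
    obtain ⟨m, hm⟩ := h1
    refine ⟨m, LinearMap.ext fun x => ?_⟩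
    rw [← vecMul_mt, mt_pow, mt_eq (f := N.vecMulLinear) (M := N) (fun _ => rfl), hm,
      Matrix.vecMul_zero]
    rfl

/-- (C) For projective modules the class vanishes. -/
theorem ZC.phi (n : ℕ) : ∀ {Y : Type u} [AddCommGroup Y] [Module B Y] {θ : Y →ₗ[B] Y},
    Module.Projective B Y → ZC χ n θ → Phi χ θ 0 := by
  induction n with
  | zero => intro Y _ _ θ _ h; exact h
  | succ n ih =>
    intro Y _ _ θ hY h
    obtain ⟨ι, hι, hι', N, p, θK, h1, h2, h3, h4, h5, h6⟩ := h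
    have hk := ker_projective (inferInstance : Module.Projective B (ι → B)) hY p h3
    have h7 := ih hk h6
    have h8 : Module.Finite B Y := Module.Finite.of_surjective p h3
    obtain ⟨m, hm⟩ : IsNilpotent θ := ZC.nil (n + 1) ⟨ι, hι, hι', N, p, θK, h1, h2, h3, h4, h5, h6⟩
    obtain ⟨g, hg⟩ := Phi.exists (χ := χ) h8 hY θ ⟨m, hm⟩
    have h9 := Phi.add (θ := N.vecMulLinear) (LinearMap.ker p).subtype p
      (Submodule.injective_subtype _) h3
      (fun y => ⟨fun hy => ⟨⟨y, hy⟩, rfl⟩, fun ⟨y', hy'⟩ => hy' ▸ y'.2⟩) (fun y => h5 y)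
      (fun y => h4 y) h7 hg
    have h10 : Phi χ (N.vecMulLinear) (χ.val (1 - N)) := Phi.free h1 fun x => rfl
    have h11 := h10.unique h9
    rw [h2, zero_add] at h11
    rw [h11]
    exact hg

/-- (M) The classes increase. -/
theorem ZC.succ (n : ℕ) : ∀ {Y : Type u} [AddCommGroup Y] [Module B Y] {θ : Y →ₗ[B] Y},
    ZC χ n θ → ZC χ (n + 1) θ := by
  induction n with
  | zero =>
    intro Y _ _ θ h
    have hpr := Phi.projective h
    obtain ⟨ι, hι, hι', i, π, h1, h2, h3⟩ := h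
    have h1' : ∀ y, π (i y) = y := fun y => LinearMap.congr_fun h1 y
    have hs : Function.Surjective π := fun y => ⟨i y, h1' y⟩
    have hk := ker_projective (inferInstance : Module.Projective B (ι → B)) hpr π hs
    have hf := ker_finite (inferInstance : Module.Finite B (ι → B)) hpr π hs
    refine ⟨ι, hι, hι', mt (i ∘ₗ θ ∘ₗ π), π, 0, nil_mt h1 h2, h3, hs, fun x => ?_, fun x => ?_, ?_⟩
    · rw [vecMul_mt]
      exact h1' _
    · rw [vecMul_mt]
      show (0 : ι → B) = i (θ (π x))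
      rw [show π (x : ι → B) = 0 from x.2, map_zero, map_zero]
    · show Phi χ (0 : LinearMap.ker π →ₗ[B] LinearMap.ker π) 0
      obtain ⟨κ, _, _, i', π', e1, -, -⟩ : ∃ (κ : Type) (_ : Fintype κ) (_ : DecidableEq κ)
          (i' : LinearMap.ker π →ₗ[B] (κ → B)) (π' : (κ → B) →ₗ[B] LinearMap.ker π),
          π' ∘ₗ i' = LinearMap.id ∧ True ∧ True := by
        obtain ⟨m, f, hf'⟩ := Module.Finite.exists_fin' B (LinearMap.ker π)
        obtain ⟨s, hs'⟩ := Module.projective_lifting_property f LinearMap.id hf'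
        exact ⟨Fin m, inferInstance, inferInstance, s, f, hs', trivial, trivial⟩
      refine ⟨κ, inferInstance, inferInstance, i', π', e1, ⟨1, by rw [pow_one]⟩, ?_⟩
      have : i' ∘ₗ (0 : LinearMap.ker π →ₗ[B] LinearMap.ker π) ∘ₗ π' = 0 := by
        refine LinearMap.ext fun x => ?_
        show i' 0 = 0
        exact map_zero i'
      rw [this, mt_zero, sub_zero, χ.val_one]
  | succ n ih =>
    intro Y _ _ θ h
    obtain ⟨ι, hι, hι', N, p, θK, h1, h2, h3, h4, h5, h6⟩ := h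
    exact ⟨ι, hι, hι', N, p, θK, h1, h2, h3, h4, h5, ih h6⟩

theorem ZC.mono {n m : ℕ} (hnm : n ≤ m) {Y : Type u} [AddCommGroup Y] [Module B Y]
    {θ : Y →ₗ[B] Y} (h : ZC χ n θ) : ZC χ m θ := by
  induction m, hnm using Nat.le_induction with
  | base => exact h
  | succ m _ ih => exact ZC.succ m ih

/-- (X) Extensions by free pairs. -/
theorem ZC.ext (n : ℕ) {K K₁ : Type u} [AddCommGroup K] [Module B K] [AddCommGroup K₁]
    [Module B K₁] {ι : Type} [Fintype ι] [DecidableEq ι] {θK : K →ₗ[B] K} {θ₁ : K₁ →ₗ[B] K₁}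
    {N : Matrix ι ι B} (j : K →ₗ[B] K₁) (q : K₁ →ₗ[B] (ι → B)) (hji : Function.Injective j)
    (hqs : Function.Surjective q) (hex : ∀ y, q y = 0 ↔ ∃ y', j y' = y)
    (hj : ∀ y', j (θK y') = θ₁ (j y')) (hq : ∀ y, q (θ₁ y) = q y ᵥ* N) (hN : IsNilpotent N)
    (hχ : χ.val (1 - N) = 0) (hK : ZC χ n θK) : ZC χ n θ₁ := by
  cases n with
  | zero =>
    have h := Phi.add j q hji hqs hex hj (θ'' := N.vecMulLinear) (fun y => hq y) hK
      (Phi.free (χ := χ) hN fun x => rfl)
    rw [hχ, add_zero] at h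
    exact h
  | succ n =>
    obtain ⟨κ, hκ, hκ', NK, pK, θKK, h1, h2, h3, h4, h5, h6⟩ := hK
    obtain ⟨s, hs⟩ := Module.projective_lifting_property q LinearMap.id hqs
    have hs' : ∀ y, q (s y) = y := fun y => LinearMap.congr_fun hs y
    have hqj : ∀ y, q (j y) = 0 := fun y => (hex _).2 ⟨y, rfl⟩
    have hst : ∀ f : ι → B, ∃ k, j k = θ₁ (s f) - s (f ᵥ* N) := fun f =>
      (hex _).1 (by rw [map_sub, hq, hs', hs', sub_self])
    choose st hst' using hst
    let stl : (ι → B) →ₗ[B] K :=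
      { toFun := st
        map_add' := fun x y => hji (by
          rw [map_add, hst', hst', hst', map_add, map_add, Matrix.add_vecMul, map_add]
          abel)
        map_smul' := fun c x => hji (by
          rw [RingHom.id_apply, map_smul, hst', hst', map_smul, map_smul, Matrix.smul_vecMul,
            map_smul, smul_sub]) }
    have hstl : ∀ f, j (stl f) = θ₁ (s f) - s (f ᵥ* N) := hst'
    obtain ⟨x, hx⟩ := Module.projective_lifting_property pK stl h3
    have hx' : ∀ f, pK (x f) = stl f := fun f => LinearMap.congr_fun hx f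
    let p : (κ ⊕ ι → B) →ₗ[B] K₁ :=
      { toFun := fun u => j (pK (u ∘ Sum.inl)) + s (u ∘ Sum.inr)
        map_add' := fun x y => by
          have e1 : (x + y) ∘ (Sum.inl : κ → κ ⊕ ι) = x ∘ Sum.inl + y ∘ Sum.inl := rfl
          have e2 : (x + y) ∘ (Sum.inr : ι → κ ⊕ ι) = x ∘ Sum.inr + y ∘ Sum.inr := rfl
          rw [e1, e2, map_add, map_add, map_add]
          abel
        map_smul' := fun c x => by
          have e1 : (c • x) ∘ (Sum.inl : κ → κ ⊕ ι) = c • (x ∘ Sum.inl) := rfl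
          have e2 : (c • x) ∘ (Sum.inr : ι → κ ⊕ ι) = c • (x ∘ Sum.inr) := rfl
          rw [e1, e2, RingHom.id_apply, map_smul, map_smul, map_smul, smul_add] }
    have hp : ∀ (u : κ → B) (f : ι → B), p (Sum.elim u f) = j (pK u) + s f := fun u f => rfl
    let N₁ : Matrix (κ ⊕ ι) (κ ⊕ ι) B := fromBlocks NK 0 (mt x) N
    have hN₁ : ∀ (u : κ → B) (f : ι → B),
        Sum.elim u f ᵥ* N₁ = Sum.elim (u ᵥ* NK + x f) (f ᵥ* N) := by
      intro u f
      rw [Matrix.vecMul_fromBlocks, Matrix.vecMul_zero, zero_add, vecMul_mt]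
      rfl
    have hdec : ∀ z : κ ⊕ ι → B, z = Sum.elim (z ∘ Sum.inl) (z ∘ Sum.inr) :=
      fun z => (Sum.elim_comp_inl_inr z).symm
    have hpN : ∀ z, p (z ᵥ* N₁) = θ₁ (p z) := by
      intro z
      rw [hdec z, hN₁, hp, hp, map_add, h4, map_add, map_add, hj, hx', hstl]
      abel
    have hkz : ∀ z, p z = 0 → z ∘ Sum.inr = 0 ∧ pK (z ∘ Sum.inl) = 0 := by
      intro z hz
      rw [hdec z, hp] at hz
      have e1 := congrArg q hz
      rw [map_add, hqj, zero_add, hs', map_zero] at e1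
      refine ⟨e1, hji ?_⟩
      rw [e1, map_zero, add_zero] at hz
      rw [hz, map_zero]
    have hkk : ∀ z : LinearMap.ker p, (z : κ ⊕ ι → B) ᵥ* N₁ ∈ LinearMap.ker p := fun z => by
      rw [LinearMap.mem_ker, hpN, show p (z : κ ⊕ ι → B) = 0 from z.2, map_zero]
    let θp : LinearMap.ker p →ₗ[B] LinearMap.ker p :=
      (N₁.vecMulLinear ∘ₗ (LinearMap.ker p).subtype).codRestrict (LinearMap.ker p) hkk
    have hθp : ∀ z : LinearMap.ker p, ((θp z : κ ⊕ ι → B)) = (z : κ ⊕ ι → B) ᵥ* N₁ := fun z => rfl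
    -- the kernel
    let e₁ : LinearMap.ker pK →ₗ[B] LinearMap.ker p :=
      { toFun := fun u => ⟨Sum.elim (u : κ → B) 0, by
          rw [LinearMap.mem_ker, hp, show pK (u : κ → B) = 0 from u.2, map_zero, map_zero,
            add_zero]⟩
        map_add' := fun u v => Subtype.ext (by
          funext z
          rcases z with z | z
          · rfl
          · exact (add_zero (0 : B)).symm)
        map_smul' := fun c u => Subtype.ext (by
          funext z
          rcases z with z | z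
          · rfl
          · exact (smul_zero c).symm) }
    have hbij : Function.Bijective e₁ := by
      constructor
      · intro u v huv
        have e1 : Sum.elim (u : κ → B) (0 : ι → B) = Sum.elim (v : κ → B) (0 : ι → B) :=
          congrArg Subtype.val huv
        refine Subtype.ext ?_
        funext z
        exact congrFun e1 (Sum.inl z)
      · intro z
        obtain ⟨e1, e2⟩ := hkz z z.2
        refine ⟨⟨(z : κ ⊕ ι → B) ∘ Sum.inl, e2⟩, Subtype.ext ?_⟩
        show Sum.elim ((z : κ ⊕ ι → B) ∘ Sum.inl) (0 : ι → B) = z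
        rw [hdec (z : κ ⊕ ι → B), e1]
        rfl
    refine ⟨κ ⊕ ι, inferInstance, inferInstance, N₁, p, θp, ?_, ?_, ?_, hpN, hθp, ?_⟩
    · obtain ⟨a, ha⟩ := h1
      obtain ⟨b, hb⟩ := hN
      have hpow : ∀ m : ℕ, ∃ X : Matrix ι κ B, N₁ ^ m = fromBlocks (NK ^ m) 0 X (N ^ m) := by
        intro m
        induction m with
        | zero => exact ⟨0, by rw [pow_zero, pow_zero, pow_zero, Matrix.fromBlocks_one]⟩
        | succ m ih =>
          obtain ⟨X, hX⟩ := ih
          refine ⟨X * NK + N ^ m * mt x, ?_⟩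
          rw [pow_succ, hX, Matrix.fromBlocks_multiply]
          congr 1
          · rw [Matrix.zero_mul, add_zero, pow_succ]
          · rw [Matrix.mul_zero, Matrix.zero_mul, add_zero]
          · rw [Matrix.mul_zero, zero_add, pow_succ]
      obtain ⟨X, hX⟩ := hpow a
      obtain ⟨X', hX'⟩ := hpow b
      refine ⟨b + a, ?_⟩
      rw [pow_add, hX, hX', ha, hb, Matrix.fromBlocks_multiply]
      rw [← Matrix.fromBlocks_zero]
      congr 1 <;> simp
    · have e : (1 : Matrix (κ ⊕ ι) (κ ⊕ ι) B) - N₁ = fromBlocks (1 - NK) 0 (-mt x) (1 - N) := by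
        rw [← Matrix.fromBlocks_one, sub_eq_add_neg, Matrix.fromBlocks_neg, Matrix.fromBlocks_add]
        congr 1
        · rw [sub_eq_add_neg]
        · rw [neg_zero, add_zero]
        · rw [zero_add]
        · rw [sub_eq_add_neg]
      rw [e, val_lowerTri χ h1.isUnit_one_sub hN.isUnit_one_sub, h2, hχ, add_zero]
    · intro y
      obtain ⟨k, hk⟩ := (hex (y - s (q y))).1 (by rw [map_sub, hs', sub_self])
      obtain ⟨u, hu⟩ := h3 k
      refine ⟨Sum.elim u (q y), ?_⟩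
      rw [hp, hu, hk, sub_add_cancel]
    · refine ZC.congr n (LinearEquiv.ofBijective e₁ hbij) (fun u => Subtype.ext ?_) h6
      show Sum.elim ((θKK u : κ → B)) (0 : ι → B) = Sum.elim (u : κ → B) (0 : ι → B) ᵥ* N₁
      rw [hN₁, h5, map_zero, add_zero, Matrix.zero_vecMul]

/-- (D) Quotients which are finitely generated projective. -/
theorem ZC.quot (n : ℕ) : ∀ {Y' Y Y'' : Type u} [AddCommGroup Y'] [Module B Y'] [AddCommGroup Y]
    [Module B Y] [AddCommGroup Y''] [Module B Y''] {θ' : Y' →ₗ[B] Y'} {θ : Y →ₗ[B] Y}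
    {θ'' : Y'' →ₗ[B] Y''} (j : Y' →ₗ[B] Y) (q : Y →ₗ[B] Y''), Function.Injective j →
    Function.Surjective q → (∀ y, q y = 0 ↔ ∃ y', j y' = y) → (∀ y', j (θ' y') = θ (j y')) →
    (∀ y, q (θ y) = θ'' (q y)) → Module.Finite B Y'' → Module.Projective B Y'' →
    ZC χ n θ' → ZC χ n θ → Phi χ θ'' 0 := by
  induction n with
  | zero =>
    intro Y' Y Y'' _ _ _ _ _ _ θ' θ θ'' j q hji hqs hex hj hq hf hp h' h
    obtain ⟨g, hg⟩ := Phi.exists (χ := χ) hf hp θ'' (nil_quot hqs hq (Phi.nil h))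
    have h1 := Phi.unique h (Phi.add j q hji hqs hex hj hq h' hg)
    rw [zero_add] at h1
    rw [h1]
    exact hg
  | succ n ih =>
    intro Y' Y Y'' _ _ _ _ _ _ θ' θ θ'' j q hji hqs hex hj hq hf hp h' h
    have hnil'' := nil_quot hqs hq (ZC.nil _ h)
    obtain ⟨κ, hκ, hκ', N', p', θK', a1, a2, a3, a4, a5, a6⟩ := h'
    obtain ⟨ι, hι, hι', N, p, θK, b1, b2, b3, b4, b5, b6⟩ := h
    have hqj : ∀ y, q (j y) = 0 := fun y => (hex _).2 ⟨y, rfl⟩
    -- `K₁`, the kernel of `F' ⊕ F → Y`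
    let P : (κ ⊕ ι → B) →ₗ[B] Y :=
      { toFun := fun u => j (p' (u ∘ Sum.inl)) + p (u ∘ Sum.inr)
        map_add' := fun x y => by
          have e1 : (x + y) ∘ (Sum.inl : κ → κ ⊕ ι) = x ∘ Sum.inl + y ∘ Sum.inl := rfl
          have e2 : (x + y) ∘ (Sum.inr : ι → κ ⊕ ι) = x ∘ Sum.inr + y ∘ Sum.inr := rfl
          rw [e1, e2, map_add, map_add, map_add]
          abel
        map_smul' := fun c x => by
          have e1 : (c • x) ∘ (Sum.inl : κ → κ ⊕ ι) = c • (x ∘ Sum.inl) := rfl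
          have e2 : (c • x) ∘ (Sum.inr : ι → κ ⊕ ι) = c • (x ∘ Sum.inr) := rfl
          rw [e1, e2, RingHom.id_apply, map_smul, map_smul, map_smul, smul_add] }
    have hP : ∀ (u : κ → B) (f : ι → B), P (Sum.elim u f) = j (p' u) + p f := fun u f => rfl
    have hdec : ∀ z : κ ⊕ ι → B, z = Sum.elim (z ∘ Sum.inl) (z ∘ Sum.inr) :=
      fun z => (Sum.elim_comp_inl_inr z).symm
    let N₁ : Matrix (κ ⊕ ι) (κ ⊕ ι) B := fromBlocks N' 0 0 N
    have hN₁ : ∀ (u : κ → B) (f : ι → B),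
        Sum.elim u f ᵥ* N₁ = Sum.elim (u ᵥ* N') (f ᵥ* N) := by
      intro u f
      rw [Matrix.vecMul_fromBlocks, Matrix.vecMul_zero, Matrix.vecMul_zero, zero_add, add_zero]
      rfl
    have hPN : ∀ z, P (z ᵥ* N₁) = θ (P z) := by
      intro z
      rw [hdec z, hN₁, hP, hP, map_add, a4, b4, hj]
    let θ₁ : LinearMap.ker P →ₗ[B] LinearMap.ker P :=
      (N₁.vecMulLinear ∘ₗ (LinearMap.ker P).subtype).codRestrict (LinearMap.ker P) (fun z => by
        rw [LinearMap.mem_ker]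
        show P ((z : κ ⊕ ι → B) ᵥ* N₁) = 0
        rw [hPN, show P (z : κ ⊕ ι → B) = 0 from z.2, map_zero])
    have hθ₁ : ∀ z : LinearMap.ker P, ((θ₁ z : κ ⊕ ι → B)) = (z : κ ⊕ ι → B) ᵥ* N₁ := fun z => rfl
    have hker : ∀ z : LinearMap.ker P, j (p' ((z : κ ⊕ ι → B) ∘ Sum.inl)) +
        p ((z : κ ⊕ ι → B) ∘ Sum.inr) = 0 := fun z => z.2
    -- `K → K₁ → F'`
    let jK : LinearMap.ker p →ₗ[B] LinearMap.ker P :=
      { toFun := fun f => ⟨Sum.elim (0 : κ → B) (f : ι → B), by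
          rw [LinearMap.mem_ker, hP, show p (f : ι → B) = 0 from f.2, map_zero, map_zero,
            add_zero]⟩
        map_add' := fun u v => Subtype.ext (by
          funext z
          rcases z with z | z
          · exact (add_zero (0 : B)).symm
          · rfl)
        map_smul' := fun c u => Subtype.ext (by
          funext z
          rcases z with z | z
          · exact (smul_zero c).symm
          · rfl) }
    let qK : LinearMap.ker P →ₗ[B] (κ → B) :=
      { toFun := fun z => (z : κ ⊕ ι → B) ∘ Sum.inl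
        map_add' := fun u v => rfl
        map_smul' := fun c u => rfl }
    have hZ₁ : ZC χ n θ₁ := by
      refine ZC.ext n (θK := θK) (N := N') jK qK ?_ ?_ ?_ ?_ ?_ a1 a2 b6
      · intro u v huv
        have e1 : Sum.elim (0 : κ → B) (u : ι → B) = Sum.elim (0 : κ → B) (v : ι → B) :=
          congrArg Subtype.val huv
        refine Subtype.ext ?_
        funext z
        exact congrFun e1 (Sum.inr z)
      · intro u
        obtain ⟨f, hf'⟩ := b3 (-(j (p' u)))
        refine ⟨⟨Sum.elim u f, ?_⟩, ?_⟩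
        · rw [LinearMap.mem_ker, hP, hf', add_neg_cancel]
        · rfl
      · intro z
        constructor
        · intro hz
          have hz' : (z : κ ⊕ ι → B) ∘ Sum.inl = 0 := hz
          refine ⟨⟨(z : κ ⊕ ι → B) ∘ Sum.inr, ?_⟩, Subtype.ext ?_⟩
          · have e1 := hker z
            rw [hz', map_zero, map_zero, zero_add] at e1
            exact e1
          · show Sum.elim (0 : κ → B) ((z : κ ⊕ ι → B) ∘ Sum.inr) = z
            rw [← hz']
            exact Sum.elim_comp_inl_inr _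
        · rintro ⟨f, rfl⟩
          rfl
      · intro f
        refine Subtype.ext ?_
        show Sum.elim (0 : κ → B) ((θK f : ι → B)) = Sum.elim (0 : κ → B) (f : ι → B) ᵥ* N₁
        rw [hN₁, b5, Matrix.zero_vecMul]
      · intro z
        show ((z : κ ⊕ ι → B) ᵥ* N₁) ∘ Sum.inl = ((z : κ ⊕ ι → B) ∘ Sum.inl) ᵥ* N'
        conv_lhs => rw [hdec (z : κ ⊕ ι → B), hN₁]
        rfl
    -- `K₂`, the kernel of `F → Y''`
    have hqp : Function.Surjective (q ∘ₗ p) := hqs.comp b3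
    have hk2p := ker_projective (inferInstance : Module.Projective B (ι → B)) hp (q ∘ₗ p) hqp
    have hk2f := ker_finite (inferInstance : Module.Finite B (ι → B)) hp (q ∘ₗ p) hqp
    let θ₂ : LinearMap.ker (q ∘ₗ p) →ₗ[B] LinearMap.ker (q ∘ₗ p) :=
      (N.vecMulLinear ∘ₗ (LinearMap.ker (q ∘ₗ p)).subtype).codRestrict _ (fun z => by
        rw [LinearMap.mem_ker]
        show q (p ((z : ι → B) ᵥ* N)) = 0
        rw [b4, hq, show q (p (z : ι → B)) = 0 from z.2, map_zero])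
    have hθ₂ : ∀ z : LinearMap.ker (q ∘ₗ p), ((θ₂ z : ι → B)) = (z : ι → B) ᵥ* N := fun z => rfl
    let j' : LinearMap.ker p' →ₗ[B] LinearMap.ker P :=
      { toFun := fun f => ⟨Sum.elim (f : κ → B) (0 : ι → B), by
          rw [LinearMap.mem_ker, hP, show p' (f : κ → B) = 0 from f.2, map_zero, map_zero,
            add_zero]⟩
        map_add' := fun u v => Subtype.ext (by
          funext z
          rcases z with z | z
          · rfl
          · exact (add_zero (0 : B)).symm)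
        map_smul' := fun c u => Subtype.ext (by
          funext z
          rcases z with z | z
          · rfl
          · exact (smul_zero c).symm) }
    let q' : LinearMap.ker P →ₗ[B] LinearMap.ker (q ∘ₗ p) :=
      { toFun := fun z => ⟨(z : κ ⊕ ι → B) ∘ Sum.inr, by
          rw [LinearMap.mem_ker]
          show q (p ((z : κ ⊕ ι → B) ∘ Sum.inr)) = 0
          have e1 := congrArg q (hker z)
          rwa [map_add, hqj, zero_add, map_zero] at e1⟩
        map_add' := fun u v => rfl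
        map_smul' := fun c u => rfl }
    have h2 : Phi χ θ₂ 0 := by
      refine ih (θ' := θK') (θ := θ₁) j' q' ?_ ?_ ?_ ?_ ?_ hk2f hk2p a6 hZ₁
      · intro u v huv
        have e1 : Sum.elim (u : κ → B) (0 : ι → B) = Sum.elim (v : κ → B) (0 : ι → B) :=
          congrArg Subtype.val huv
        refine Subtype.ext ?_
        funext z
        exact congrFun e1 (Sum.inl z)
      · intro f
        obtain ⟨y', hy'⟩ := (hex (p (f : ι → B))).1 f.2
        obtain ⟨u, hu⟩ := a3 (-y')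
        refine ⟨⟨Sum.elim u (f : ι → B), ?_⟩, ?_⟩
        · rw [LinearMap.mem_ker, hP, hu, map_neg, hy', neg_add_cancel]
        · rfl
      · intro z
        constructor
        · intro hz
          have hz' : (z : κ ⊕ ι → B) ∘ Sum.inr = 0 := congrArg Subtype.val hz
          refine ⟨⟨(z : κ ⊕ ι → B) ∘ Sum.inl, ?_⟩, Subtype.ext ?_⟩
          · have e1 := hker z
            rw [hz', map_zero, add_zero] at e1
            rw [LinearMap.mem_ker]
            exact hji (e1.trans (map_zero j).symm)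
          · show Sum.elim ((z : κ ⊕ ι → B) ∘ Sum.inl) (0 : ι → B) = z
            rw [← hz']
            exact Sum.elim_comp_inl_inr _
        · rintro ⟨f, rfl⟩
          exact Subtype.ext rfl
      · intro f
        refine Subtype.ext ?_
        show Sum.elim ((θK' f : κ → B)) (0 : ι → B) = Sum.elim (f : κ → B) (0 : ι → B) ᵥ* N₁
        rw [hN₁, a5, Matrix.zero_vecMul]
      · intro z
        refine Subtype.ext ?_
        show ((z : κ ⊕ ι → B) ᵥ* N₁) ∘ Sum.inr = ((z : κ ⊕ ι → B) ∘ Sum.inr) ᵥ* N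
        conv_lhs => rw [hdec (z : κ ⊕ ι → B), hN₁]
        rfl
    obtain ⟨g, hg⟩ := Phi.exists (χ := χ) hf hp θ'' hnil''
    have h9 := Phi.add (θ' := θ₂) (θ := N.vecMulLinear) (LinearMap.ker (q ∘ₗ p)).subtype (q ∘ₗ p)
      (Submodule.injective_subtype _) hqp
      (fun y => ⟨fun hy => ⟨⟨y, hy⟩, rfl⟩, fun ⟨y', hy'⟩ => hy' ▸ y'.2⟩) (fun y => hθ₂ y)
      (fun y => by
        show q (p (y ᵥ* N)) = θ'' (q (p y))
        rw [b4, hq]) h2 hg
    have h11 := (Phi.free (χ := χ) b1 fun x => rfl : Phi χ (N.vecMulLinear) (χ.val (1 - N))).unique h9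
    rw [b2, zero_add] at h11
    rw [h11]
    exact hg

/-- The end: `Y''` free. -/
theorem ZC.free (n : ℕ) {Y' Y : Type u} [AddCommGroup Y'] [Module B Y'] [AddCommGroup Y]
    [Module B Y] {ι : Type} [Fintype ι] [DecidableEq ι] {θ' : Y' →ₗ[B] Y'} {θ : Y →ₗ[B] Y}
    {N : Matrix ι ι B} (j : Y' →ₗ[B] Y) (q : Y →ₗ[B] (ι → B)) (hji : Function.Injective j)
    (hqs : Function.Surjective q) (hex : ∀ y, q y = 0 ↔ ∃ y', j y' = y)
    (hj : ∀ y', j (θ' y') = θ (j y')) (hq : ∀ y, q (θ y) = q y ᵥ* N) (hN : IsNilpotent N)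
    (h' : ZC χ n θ') (h : ZC χ n θ) : χ.val (1 - N) = 0 := by
  have h1 := ZC.quot n (θ'' := N.vecMulLinear) j q hji hqs hex hj (fun y => hq y) inferInstance
    inferInstance h' h
  exact (Phi.free (χ := χ) hN fun x => rfl : Phi χ (N.vecMulLinear) (χ.val (1 - N))).unique h1

end zc

end Pool.Agent.NegK.TTZ
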