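import Pool.Agent.Lib.MP_28303a_al.TT.Defs
import Pool.Agent.Lib.MP_28303a_al.TT47.Zn

/-! # Section 4 of the paper for the definitions of `TT/Defs.lean`

`zc_mono` (M), `zc_phi` (C), `zc_ext` (X), `zc_quot` (D) and `zmain` (the end). -/

set_option autoImplicit false
set_option linter.unusedSectionVars false

namespace Pool.Agent.NegK.TT

universe u v w

open Matrix

section

variable {B : Type u} [Ring B] {M : Type u} [AddCommGroup M] {χ : Det1 B M}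

theorem mOf_eq_mt {ι κ : Type} [Fintype ι] [DecidableEq ι] [Fintype κ] [DecidableEq κ]
    (f : (ι → B) →ₗ[B] (κ → B)) : mOf f = TTZ.mt f := rfl

theorem vecMul_mOf {ι κ : Type} [Fintype ι] [DecidableEq ι] [Fintype κ] [DecidableEq κ]
    (f : (ι → B) →ₗ[B] (κ → B)) (x : ι → B) : x ᵥ* mOf f = f x := TTZ.vecMul_mt f x

theorem phi_iff {Y : Type u} [AddCommGroup Y] [Module B Y] {θ : Y →ₗ[B] Y} {g : M} :
    TTZ.Phi χ θ g ↔ IsNilpotent θ ∧ Phi χ Y θ g := by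
  constructor
  · rintro ⟨ι, h1, h2, i, π, h3, h4, h5⟩
    exact ⟨h4, ι, h1, h2, i, π, h3, h5⟩
  · rintro ⟨h4, ι, h1, h2, i, π, h3, h5⟩
    exact ⟨ι, h1, h2, i, π, h3, h4, h5⟩

theorem zc_iff (n : ℕ) : ∀ {Y : Type u} [AddCommGroup Y] [Module B Y] {θ : Y →ₗ[B] Y},
    Zc χ n Y θ ↔ TTZ.ZC χ n θ := by
  induction n with
  | zero =>
    intro Y _ _ θ
    constructor
    · rintro ⟨-, -, h3, h4⟩
      exact phi_iff.2 ⟨h3, h4⟩
    · intro h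
      have h' : TTZ.Phi χ θ 0 := h
      exact ⟨h'.finite, h'.projective, (phi_iff.1 h').1, (phi_iff.1 h').2⟩
  | succ n ih =>
    intro Y _ _ θ
    constructor
    · rintro ⟨ι, h1, h2, N, p, θ', h3, h4, h5, h6, h7, h8⟩
      exact ⟨ι, h1, h2, N, p, θ', h3, h4, h5, h6, h7, ih.1 h8⟩
    · rintro ⟨ι, h1, h2, N, p, θ', h3, h4, h5, h6, h7, h8⟩
      exact ⟨ι, h1, h2, N, p, θ', h3, h4, h5, h6, h7, ih.2 h8⟩

/-- (M) -/
theorem zc_mono {n m : ℕ} (h : n ≤ m) {Y : Type u} [AddCommGroup Y] [Module B Y]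
    {θ : Y →ₗ[B] Y} (h1 : Zc χ n Y θ) : Zc χ m Y θ :=
  (zc_iff m).2 (TTZ.ZC.mono h ((zc_iff n).1 h1))

/-- Isomorphic pairs. -/
theorem zc_congr (n : ℕ) {Y Y' : Type u} [AddCommGroup Y] [Module B Y] [AddCommGroup Y']
    [Module B Y'] (e : Y ≃ₗ[B] Y') {θ : Y →ₗ[B] Y} {θ' : Y' →ₗ[B] Y'}
    (he : ∀ y, e (θ y) = θ' (e y)) (h : Zc χ n Y θ) : Zc χ n Y' θ' :=
  (zc_iff n).2 (TTZ.ZC.congr n e he ((zc_iff n).1 h))

theorem zc_nil (n : ℕ) {Y : Type u} [AddCommGroup Y] [Module B Y] {θ : Y →ₗ[B] Y}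
    (h : Zc χ n Y θ) : IsNilpotent θ := TTZ.ZC.nil n ((zc_iff n).1 h)

/-- (C) -/
theorem zc_phi (n : ℕ) {Y : Type u} [AddCommGroup Y] [Module B Y] {θ : Y →ₗ[B] Y}
    (hY : Module.Projective B Y) (h : Zc χ n Y θ) : Phi χ Y θ 0 :=
  (phi_iff.1 (TTZ.ZC.phi n hY ((zc_iff n).1 h))).2

/-- (X) -/
theorem zc_ext (n : ℕ) {K K₁ : Type u} [AddCommGroup K] [Module B K] [AddCommGroup K₁]
    [Module B K₁] {ι : Type} [Fintype ι] [DecidableEq ι] {θK : K →ₗ[B] K} {θ₁ : K₁ →ₗ[B] K₁}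
    {N : Matrix ι ι B} (j : K →ₗ[B] K₁) (q : K₁ →ₗ[B] (ι → B)) (hji : Function.Injective j)
    (hqs : Function.Surjective q) (hex : ∀ y, q y = 0 ↔ ∃ y', j y' = y)
    (hj : ∀ y', j (θK y') = θ₁ (j y')) (hq : ∀ y, q (θ₁ y) = q y ᵥ* N) (hN : IsNilpotent N)
    (hχ : χ.val (1 - N) = 0) (hK : Zc χ n K θK) : Zc χ n K₁ θ₁ :=
  (zc_iff n).2 (TTZ.ZC.ext n j q hji hqs hex hj hq hN hχ ((zc_iff n).1 hK))

/-- (D) -/
theorem zc_quot (n : ℕ) {Y' Y Y'' : Type u} [AddCommGroup Y'] [Module B Y'] [AddCommGroup Y]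
    [Module B Y] [AddCommGroup Y''] [Module B Y''] {θ' : Y' →ₗ[B] Y'} {θ : Y →ₗ[B] Y}
    {θ'' : Y'' →ₗ[B] Y''} (j : Y' →ₗ[B] Y) (q : Y →ₗ[B] Y'') (hji : Function.Injective j)
    (hqs : Function.Surjective q) (hex : ∀ y, q y = 0 ↔ ∃ y', j y' = y)
    (hj : ∀ y', j (θ' y') = θ (j y')) (hq : ∀ y, q (θ y) = θ'' (q y))
    (hf : Module.Finite B Y'') (hp : Module.Projective B Y'') (h' : Zc χ n Y' θ')
    (h : Zc χ n Y θ) : Phi χ Y'' θ'' 0 :=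
  (phi_iff.1 (TTZ.ZC.quot n j q hji hqs hex hj hq hf hp ((zc_iff n).1 h') ((zc_iff n).1 h))).2

/-- ZMAIN: an exact sequence `0 → (Y', θ') → (Y, θ) → (B^J, μ) → 0` with `(Y', θ')` and `(Y, θ)` in
`𝒵_n`. -/
theorem zmain (n : ℕ) {Y' Y : Type u} [AddCommGroup Y'] [Module B Y'] [AddCommGroup Y]
    [Module B Y] {J : Type} [Fintype J] [DecidableEq J] {θ' : Y' →ₗ[B] Y'} {θ : Y →ₗ[B] Y}
    {μ : Matrix J J B} (j : Y' →ₗ[B] Y) (q : Y →ₗ[B] (J → B)) (hji : Function.Injective j)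
    (hqs : Function.Surjective q) (hex : ∀ y, q y = 0 ↔ ∃ y', j y' = y)
    (hj : ∀ y', j (θ' y') = θ (j y')) (hq : ∀ y, q (θ y) = q y ᵥ* μ) (hμ : IsNilpotent μ)
    (h' : Zc χ n Y' θ') (h : Zc χ n Y θ) : χ.val (1 - μ) = 0 :=
  TTZ.ZC.free n j q hji hqs hex hj hq hμ ((zc_iff n).1 h') ((zc_iff n).1 h)

/-- The value of the determinant does not depend on the choices. -/
theorem phi_unique {Y : Type u} [AddCommGroup Y] [Module B Y] {θ : Y →ₗ[B] Y}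
    (hθ : IsNilpotent θ) {g g' : M} (h : Phi χ Y θ g) (h' : Phi χ Y θ g') : g = g' :=
  (phi_iff.2 ⟨hθ, h⟩).unique (phi_iff.2 ⟨hθ, h'⟩)

end

end Pool.Agent.NegK.TT
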