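import Pool.Agent.Lib.MP_28303a_al.TT47.Fg
import Pool.Agent.Lib.MP_28303a_al.TT47.Zm
import Pool.Agent.Lib.MP_28303a_al.TT.Rows
import Pool.Agent.Lib.MP_28303a_al.NK.FPRes
import Pool.Agent.Lib.MP_28303a_al.TW.H19.Fin1
import Pool.Agent.Lib.MP_28303a_al.TW.H69.Fam
import Pool.Agent.Lib.MP_28303a_al.TW.H89.Rci

/-! # Module ZG: graded modules with chain nilpotent endomorphisms (section 4 (G)) -/

set_option autoImplicit false
set_option linter.unusedSectionVars false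
set_option linter.unusedVariables false

namespace Pool.Agent.NegK.TT.H47

universe u v w

open Matrix MonoidAlgebra
open Pool.Agent.NegK.TW

/-- Homogeneous rows form a graded matrix. -/
theorem grd_of_spt {k Γ D : Type u} [Ring k] [Group Γ] [MulAction Γ D] {J Λ : Type}
    {dg : J → D} {c : Λ → D} {z : Matrix Λ J (MonoidAlgebra k Γ)} (hz : ∀ l, Spt dg {c l} (z l)) :
    Grd c dg z := fun l j h hh => (hz l j h hh).symm

section zero

variable {k Γ D : Type u} [Ring k] [Group Γ] [MulAction Γ D] {J Λ : Type} [Fintype J]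
  [DecidableEq J] [Fintype Λ] [DecidableEq Λ]

/-- The graded part of an idempotent matrix which is a splitting. -/
theorem splitGr {dg : J → D} {c : Λ → D} {z : Matrix Λ J (MonoidAlgebra k Γ)}
    (hz : ∀ l, Spt dg {c l} (z l)) {E : Matrix Λ Λ (MonoidAlgebra k Γ)}
    (h1 : ∀ x : Λ → MonoidAlgebra k Γ, x ᵥ* E ᵥ* z = x ᵥ* z)
    (h2 : ∀ x : Λ → MonoidAlgebra k Γ, x ᵥ* z = 0 → x ᵥ* E = 0) :
    ∃ E₀ : Matrix Λ Λ (MonoidAlgebra k Γ), Grd c c E₀ ∧
      (∀ x : Λ → MonoidAlgebra k Γ, x ᵥ* E₀ ᵥ* z = x ᵥ* z) ∧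
      (∀ x : Λ → MonoidAlgebra k Γ, x ᵥ* z = 0 → x ᵥ* E₀ = 0) := by
  classical
  have hzG := grd_of_spt hz
  have hset : ∀ d : D, {d' | d = d'} = ({d} : Set D) := by
    intro d
    ext d'
    exact ⟨fun h => h.symm, fun h => h.symm⟩
  have hp : ∀ (d : D) (x : Λ → MonoidAlgebra k Γ), Spt c {d} x →
      x ᵥ* part c c (fun d d' => d = d') E = res c {d} (x ᵥ* E) := by
    intro d x hx
    rw [vecMul_part invar_eq E hx, hset]
  refine ⟨part c c (fun d d' => d = d') E, sup_part _ _ _ _, fun x => ?_, fun x hx => ?_⟩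
  · obtain ⟨F, hF⟩ := exists_degrees c x
    rw [← hF.sum_res, Matrix.sum_vecMul, Matrix.sum_vecMul, Matrix.sum_vecMul]
    refine Finset.sum_congr rfl fun d _ => ?_
    rw [hp d _ (spt_res _ _ _), ← hzG.res_vecMul, h1, hzG.res_vecMul, res_res, Set.inter_self]
  · obtain ⟨F, hF⟩ := exists_degrees c x
    rw [← hF.sum_res, Matrix.sum_vecMul]
    refine Finset.sum_eq_zero fun d _ => ?_
    rw [hp d _ (spt_res _ _ _), h2, map_zero]
    rw [← hzG.res_vecMul, hx, map_zero]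

/-- The endomorphism of the free module induced by a splitting is chain nilpotent. -/
theorem chainNil_split {dg : J → D} {c : Λ → D} {z : Matrix Λ J (MonoidAlgebra k Γ)}
    (hz : ∀ l, Spt dg {c l} (z l)) {E₀ N : Matrix Λ Λ (MonoidAlgebra k Γ)} (hE : Grd c c E₀)
    (h1 : ∀ x : Λ → MonoidAlgebra k Γ, x ᵥ* E₀ ᵥ* z = x ᵥ* z)
    (h2 : ∀ x : Λ → MonoidAlgebra k Γ, x ᵥ* z = 0 → x ᵥ* E₀ = 0)
    {m : Matrix J J (MonoidAlgebra k Γ)} (hm : z * m = N * z) (d : ℕ)
    (hch : ∀ l : List D, l.length = d → ∀ x : Λ → MonoidAlgebra k Γ, itc dg m l (x ᵥ* z) = 0) :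
    ChainNil c (N * E₀) (d + 1) := by
  have hzG := grd_of_spt hz
  have hm' : ∀ x : Λ → MonoidAlgebra k Γ, x ᵥ* N ᵥ* z = x ᵥ* z ᵥ* m := by
    intro x
    rw [Matrix.vecMul_vecMul, Matrix.vecMul_vecMul, hm]
  have key : ∀ (L : List D) (x : Λ → MonoidAlgebra k Γ), ∃ x' : Λ → MonoidAlgebra k Γ,
      itc c (N * E₀) L (x ᵥ* E₀) = x' ᵥ* E₀ ∧ x' ᵥ* z = itc dg m L (x ᵥ* z) := by
    intro L
    induction L with
    | nil => intro x; exact ⟨x, rfl, rfl⟩
    | cons a L ih =>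
      intro x
      obtain ⟨x', h3, h4⟩ := ih (res c {a} (x ᵥ* E₀ ᵥ* N))
      refine ⟨x', ?_, ?_⟩
      · rw [itc_cons, ← Matrix.vecMul_vecMul, hE.res_vecMul]
        exact h3
      · rw [h4, itc_cons, ← hzG.res_vecMul, hm', h1]
  intro L hL x
  cases L with
  | nil => simp at hL
  | cons a L =>
    rw [itc_cons, ← Matrix.vecMul_vecMul, hE.res_vecMul]
    obtain ⟨x', h3, h4⟩ := key L (res c {a} (x ᵥ* N))
    rw [h3, h2]
    rw [h4]
    exact hch L (by simpa using hL) _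

end zero

/-- Powers of a restricted endomorphism. -/
theorem nil_of_chain {k Γ D : Type u} [Ring k] [Group Γ] [MulAction Γ D] {J : Type} [Fintype J]
    [DecidableEq J] {dg : J → D} {m : Matrix J J (MonoidAlgebra k Γ)} {d : ℕ}
    {Y : Submodule (MonoidAlgebra k Γ) (J → MonoidAlgebra k Γ)}
    (hch : ∀ l : List D, l.length = d → ∀ x ∈ Y, itc dg m l x = 0)
    (θ : Y →ₗ[MonoidAlgebra k Γ] Y)
    (hθ : ∀ x, (θ x : J → MonoidAlgebra k Γ) = (x : J → MonoidAlgebra k Γ) ᵥ* m) :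
    IsNilpotent θ := by
  refine ⟨d, LinearMap.ext fun x => Subtype.ext ?_⟩
  have h1 : ∀ n : ℕ, (((θ ^ n) x : Y) : J → MonoidAlgebra k Γ) =
      (x : J → MonoidAlgebra k Γ) ᵥ* m ^ n := by
    intro n
    induction n with
    | zero => rw [pow_zero, pow_zero, Matrix.vecMul_one]; rfl
    | succ n ih =>
      rw [pow_succ', pow_succ m, ← Matrix.vecMul_vecMul, ← ih]
      exact hθ _
  rw [h1]
  exact pow_eq_zero_of_itc dg m d _ fun l hl => hch l hl _ x.2

theorem isUnit_one_sub_int {A : Type u} [Ring A] {Λ : Type} [Fintype Λ] [DecidableEq Λ]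
    {N : Matrix Λ Λ ℤ} (hN : IsNilpotent N) : IsNilpotent (N.map (Int.castRingHom A)) :=
  hN.map (Int.castRingHom A).mapMatrix

/-- Integral nilpotent matrices have determinant zero. -/
theorem gdet_int (S : BdSys.{u}) (k Γ : Type u) [Ring k] [Group Γ] {Λ : Type} [Fintype Λ]
    [DecidableEq Λ] {N : Matrix Λ Λ ℤ} (hN : IsNilpotent N) :
    (gdet S k Γ).val (1 - N.map (Int.castRingHom (LG k Γ))) = 0 := by
  have h1 : (1 : Matrix Λ Λ (LG k Γ)) - N.map (Int.castRingHom (LG k Γ)) =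
      (1 - N.map (Int.castRingHom (MonoidAlgebra k Γ))).map
        (cmap Γ (LaurentPolynomial.C : k →+* LaurentPolynomial k)) := by
    have h2 : (cmap Γ (LaurentPolynomial.C : k →+* LaurentPolynomial k)).mapMatrix
        (1 - N.map (Int.castRingHom (MonoidAlgebra k Γ))) = 1 - N.map (Int.castRingHom (LG k Γ)) := by
      rw [map_sub, map_one]
      congr 1
      ext1 i j
      show cmap Γ (LaurentPolynomial.C : k →+* LaurentPolynomial k)
        ((Int.castRingHom (MonoidAlgebra k Γ)) (N i j)) = (Int.castRingHom (LG k Γ)) (N i j)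
      rw [eq_intCast, eq_intCast, map_intCast]
    exact h2.symm
  rw [h1]
  exact gdet_const S _ (isUnit_one_sub_int hN).isUnit_one_sub

/-- ZG. -/
theorem zg_of (hfin : FinStatement.{u}) (hrci : RciStatement.{u}) (S : BdSys.{u}) (hS : IsInd S)
    (k Γ D : Type u) [Ring k] [Group Γ] [MulAction Γ D] (n : ℕ) :
    ∀ (J : Type) [Fintype J] [DecidableEq J] (dg : J → D) (m : Matrix J J (LG k Γ)) (d : ℕ)
    (Y : Submodule (LG k Γ) (J → LG k Γ)),
    (∀ (c : D), ∀ x ∈ Y, res dg {c} x ∈ Y) → (∀ x ∈ Y, x ᵥ* m ∈ Y) →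
    (∀ l : List D, l.length = d → ∀ x ∈ Y, itc dg m l x = 0) →
    (∀ j, RegCoh (MonoidAlgebra k (MulAction.stabilizer Γ (dg j)))) → HasFPRes (LG k Γ) n Y →
    ∀ θ : Y →ₗ[LG k Γ] Y, (∀ x, (θ x : J → LG k Γ) = (x : J → LG k Γ) ᵥ* m) →
    TTZ.ZC (Y := ↥Y) (gdet S k Γ) n θ := by
  induction n with
  | zero =>
    intro J _ _ dg m d Y hgr hst hch hrc hfp θ hθ
    obtain ⟨hf, hpr⟩ := hfp
    obtain ⟨Λ, _, _, z, N, c, e, hz, hc, hN, hnil, hchN, hrange⟩ := fg _ Γ D J dg m d Y hgr hst hch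
      (Module.Finite.iff_fg.1 hf)
    have hmem : ∀ x : Λ → LG k Γ, x ᵥ* z ∈ Y := fun x => hrange ▸ ⟨x, rfl⟩
    let p : (Λ → LG k Γ) →ₗ[LG k Γ] Y := z.vecMulLinear.codRestrict Y hmem
    have hp : ∀ x, ((p x : Y) : J → LG k Γ) = x ᵥ* z := fun x => rfl
    have hps : Function.Surjective p := by
      intro y
      have h1 : (y : J → LG k Γ) ∈ LinearMap.range z.vecMulLinear := by
        rw [hrange]; exact y.2
      obtain ⟨x, hx⟩ := h1
      exact ⟨x, Subtype.ext hx⟩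
    obtain ⟨s, hs⟩ := Module.projective_lifting_property p LinearMap.id hps
    have hs' : ∀ y, p (s y) = y := fun y => LinearMap.congr_fun hs y
    set E : Matrix Λ Λ (LG k Γ) := TTZ.mt (s ∘ₗ p) with hE
    have hEx : ∀ x : Λ → LG k Γ, x ᵥ* E = s (p x) := fun x => TTZ.vecMul_mt (s ∘ₗ p) x
    obtain ⟨E₀, hE0, h1, h2⟩ := splitGr (k := LaurentPolynomial k) hz (E := E)
      (fun x => by rw [hEx, ← hp, hs', hp])
      (fun x hx => by
        rw [hEx]
        have : p x = 0 := Subtype.ext hx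
        rw [this, map_zero])
    have hch' : ChainNil c (N.map (Int.castRingHom (LG k Γ)) * E₀) (d + 1) :=
      chainNil_split (k := LaurentPolynomial k) hz hE0 h1 h2 hN d
        (fun l hl x => hch l hl _ (hmem x))
    -- the splitting
    let σ : Y →ₗ[LG k Γ] (Λ → LG k Γ) := E₀.vecMulLinear ∘ₗ s
    have hσ : ∀ x : Λ → LG k Γ, σ (p x) = x ᵥ* E₀ := by
      intro x
      show (s (p x)) ᵥ* E₀ = x ᵥ* E₀
      rw [← sub_eq_zero, ← Matrix.sub_vecMul]
      refine h2 _ ?_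
      rw [Matrix.sub_vecMul, ← hp, hs', hp, sub_self]
    have hpσ : p ∘ₗ σ = LinearMap.id := by
      refine LinearMap.ext fun y => Subtype.ext ?_
      show (s y ᵥ* E₀) ᵥ* z = (y : J → LG k Γ)
      rw [h1, ← hp, hs']
    have hmt : TTZ.mt (σ ∘ₗ θ ∘ₗ p) = N.map (Int.castRingHom (LG k Γ)) * E₀ := by
      refine TTZ.mt_eq fun x => ?_
      show σ (θ (p x)) = _
      have h3 : θ (p x) = p (x ᵥ* N.map (Int.castRingHom (LG k Γ))) := by
        refine Subtype.ext ?_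
        rw [hθ, hp, hp, Matrix.vecMul_vecMul, Matrix.vecMul_vecMul, hN]
      rw [h3, hσ, Matrix.vecMul_vecMul]
    refine ⟨Λ, inferInstance, inferInstance, σ, p, hpσ, nil_of_chain hch θ hθ, ?_⟩
    rw [hmt, gdet_val, hS]
    refine hfin k Γ D Λ c _ (d + 1) hch' fun l => ?_
    obtain ⟨j, h, hh⟩ := hc l
    rw [hh]
    exact hrci.2 k Γ D (dg j) h (hrc j)
  | succ n ih =>
    intro J _ _ dg m d Y hgr hst hch hrc hfp θ hθ
    have hf : Module.Finite (LG k Γ) Y := by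
      obtain ⟨P, _, _, f, hP, -, hfs, -⟩ := hfp
      exact Module.Finite.of_surjective f hfs
    obtain ⟨Λ, _, _, z, N, c, e, hz, hc, hN, hnil, hchN, hrange⟩ := fg _ Γ D J dg m d Y hgr hst hch
      (Module.Finite.iff_fg.1 hf)
    have hmem : ∀ x : Λ → LG k Γ, x ᵥ* z ∈ Y := fun x => hrange ▸ ⟨x, rfl⟩
    let p : (Λ → LG k Γ) →ₗ[LG k Γ] Y := z.vecMulLinear.codRestrict Y hmem
    have hp : ∀ x, ((p x : Y) : J → LG k Γ) = x ᵥ* z := fun x => rfl
    have hps : Function.Surjective p := by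
      intro y
      have h1 : (y : J → LG k Γ) ∈ LinearMap.range z.vecMulLinear := by
        rw [hrange]; exact y.2
      obtain ⟨x, hx⟩ := h1
      exact ⟨x, Subtype.ext hx⟩
    have hker : ∀ x : Λ → LG k Γ, x ∈ LinearMap.ker p ↔ x ᵥ* z = 0 := by
      intro x
      rw [LinearMap.mem_ker, ← hp]
      exact ⟨fun h => by rw [h]; rfl, fun h => Subtype.ext h⟩
    have hzG := grd_of_spt (k := LaurentPolynomial k) hz
    have hpN : ∀ x : Λ → LG k Γ, p (x ᵥ* N.map (Int.castRingHom (LG k Γ))) = θ (p x) := by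
      intro x
      refine Subtype.ext ?_
      rw [hθ, hp, hp, Matrix.vecMul_vecMul, Matrix.vecMul_vecMul, hN]
    have hst' : ∀ x ∈ LinearMap.ker p, x ᵥ* N.map (Int.castRingHom (LG k Γ)) ∈
        LinearMap.ker p := by
      intro x hx
      rw [LinearMap.mem_ker, hpN, LinearMap.mem_ker.1 hx, map_zero]
    let θK : LinearMap.ker p →ₗ[LG k Γ] LinearMap.ker p :=
      (N.map (Int.castRingHom (LG k Γ))).vecMulLinear.restrict hst'
    have hθK : ∀ x : LinearMap.ker p, ((θK x : LinearMap.ker p) : Λ → LG k Γ) =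
        (x : Λ → LG k Γ) ᵥ* N.map (Int.castRingHom (LG k Γ)) := fun x => rfl
    refine ⟨Λ, inferInstance, inferInstance, N.map (Int.castRingHom (LG k Γ)), p, θK,
      isUnit_one_sub_int hnil, gdet_int S k Γ hnil, hps, hpN, hθK, ?_⟩
    refine ih Λ c (N.map (Int.castRingHom (LG k Γ))) e (LinearMap.ker p) ?_ hst' ?_ ?_ ?_ θK hθK
    · intro a x hx
      rw [hker] at hx ⊢
      rw [← hzG.res_vecMul, hx, map_zero]
    · intro l hl x _
      exact hchN l hl x
    · intro l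
      obtain ⟨j, h, hh⟩ := hc l
      rw [hh]
      exact hrci.2 k Γ D (dg j) h (hrc j)
    · exact HasFPRes.syz inferInstance inferInstance p hps hfp

/-- FG. -/
theorem fg' : FgStatement.{u} := fun k Γ D _ _ _ J _ _ dg m d Y h1 h2 h3 h4 =>
  fg k Γ D J dg m d Y h1 h2 h3 h4

/-- ZG. -/
theorem zg : ZgStatement.{u} := fun S hS k Γ D _ _ _ n J _ _ dg m d Y h1 h2 h3 h4 h5 θ h6 =>
  (zc_iff n).2 (zg_of (H82.fin H69.fam H19.coh' H89.rci H19.lat') H89.rci S hS k Γ D n J dg m d Y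
    h1 h2 h3 h4 h5 θ h6)

end Pool.Agent.NegK.TT.H47
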