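import Pool.Agent.Lib.MP_28303a_al.TT.Defs

/-! # Module FG: the family of all iterated components of generators of a graded submodule -/

set_option autoImplicit false
set_option linter.unusedSectionVars false
set_option linter.unusedVariables false

namespace Pool.Agent.NegK.TT.H47

universe u v w

open Matrix MonoidAlgebra
open Pool.Agent.NegK.TW

/-- Matrices which raise the depth of the index are chain nilpotent. -/
theorem chainNil_of_depth {k Γ D : Type u} [Ring k] [Group Γ] [MulAction Γ D] {J : Type}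
    [Fintype J] (dg : J → D) (μ : Matrix J J (MonoidAlgebra k Γ)) (dep : J → ℕ) (d : ℕ)
    (h1 : ∀ i i', μ i i' ≠ 0 → dep i < dep i') (h2 : ∀ i, dep i < d) : ChainNil dg μ d := by
  have key : ∀ (L : List D) (r : ℕ) (x : J → MonoidAlgebra k Γ), (∀ i, x i ≠ 0 → r ≤ dep i) →
      ∀ i, itc dg μ L x i ≠ 0 → r + L.length ≤ dep i := by
    intro L
    induction L with
    | nil => intro r x hx i hi; exact hx i hi
    | cons a L ih =>
      intro r x hx i hi
      rw [itc_cons] at hi
      have h3 := ih (r + 1) _ (fun i' hi' => ?_) i hi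
      · rw [List.length_cons]; omega
      · have h4 : (x ᵥ* μ) i' ≠ 0 := by
          intro h0
          apply hi'
          rw [res_apply, h0, map_zero]
        obtain ⟨i₀, _, h5⟩ := Finset.exists_ne_zero_of_sum_ne_zero
          (show ∑ i₀, x i₀ * μ i₀ i' ≠ 0 from h4)
        have h6 := hx i₀ (left_ne_zero_of_mul h5)
        have h7 := h1 i₀ i' (right_ne_zero_of_mul h5)
        omega
  intro L hL x
  funext i
  by_contra h0
  have h3 := key L 0 x (fun i _ => Nat.zero_le _) i h0
  have h4 := h2 i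
  omega

section fam

variable {k Γ D : Type u} [Ring k] [Group Γ] [MulAction Γ D] {J G : Type} [Fintype J]
  [Fintype G]

/-- The pairs `(j, l)` with `l = []` or a nonzero iterated component. -/
def famSet (dg : J → D) (m : Matrix J J (MonoidAlgebra k Γ)) (u : G → J → MonoidAlgebra k Γ) :
    Set (G × List D) :=
  {p | itc dg m p.2 (u p.1) ≠ 0}

theorem famSet_len {dg : J → D} {m : Matrix J J (MonoidAlgebra k Γ)}
    {u : G → J → MonoidAlgebra k Γ} {d : ℕ}
    (h : ∀ l : List D, l.length = d → ∀ g, itc dg m l (u g) = 0) {p : G × List D}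
    (hp : p ∈ famSet dg m u) : p.2.length < d := by
  by_contra hc
  apply hp
  have h1 : itc dg m (p.2.take d ++ p.2.drop d) (u p.1) = 0 := by
    rw [itc_append, h (p.2.take d) (by rw [List.length_take]; omega), itc_zero]
  rwa [List.take_append_drop] at h1

theorem famSet_finite {dg : J → D} {m : Matrix J J (MonoidAlgebra k Γ)}
    {u : G → J → MonoidAlgebra k Γ} {d : ℕ}
    (h : ∀ l : List D, l.length = d → ∀ g, itc dg m l (u g) = 0) : (famSet dg m u).Finite := by
  classical
  have h1 : ∀ n : ℕ, {p : G × List D | p ∈ famSet dg m u ∧ p.2.length = n}.Finite := by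
    intro n
    induction n with
    | zero =>
      refine (Set.finite_range (fun j : G => (j, ([] : List D)))).subset ?_
      rintro ⟨j, l⟩ ⟨_, hl⟩
      have hl' : l.length = 0 := hl
      rw [List.length_eq_zero_iff] at hl'
      exact ⟨j, by rw [hl']⟩
    | succ n ih =>
      choose F hF using fun p : G × List D => exists_degrees dg ((itc dg m p.2 (u p.1)) ᵥ* m)
      refine (ih.biUnion fun p _ => ((F p).finite_toSet.image
        (fun c => (p.1, p.2 ++ [c])))).subset ?_
      rintro ⟨j, l⟩ ⟨hp, hl⟩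
      have hl' : l.length = n + 1 := hl
      have hne' : l ≠ [] := by
        rintro rfl
        simp at hl'
      obtain ⟨l₀, c, rfl⟩ : ∃ l₀ c, l = l₀ ++ [c] :=
        ⟨l.dropLast, l.getLast hne', (List.dropLast_append_getLast hne').symm⟩
      have hl₀ : l₀.length = n := by
        rw [List.length_append, List.length_singleton] at hl'
        omega
      have hp' : itc dg m (l₀ ++ [c]) (u j) ≠ 0 := hp
      rw [itc_append, itc_cons, itc_nil] at hp'
      refine Set.mem_biUnion (x := (j, l₀)) ⟨?_, hl₀⟩ ⟨c, ?_, rfl⟩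
      · intro h0
        have h0' : itc dg m l₀ (u j) = 0 := h0
        rw [h0', Matrix.zero_vecMul, map_zero] at hp'
        exact hp' rfl
      · by_contra hc
        refine hp' ((hF (j, l₀)).res_eq_zero fun a ha hac => ?_)
        have : a = c := hac
        exact hc (this ▸ ha)
  refine (Set.Finite.biUnion (Finset.range d).finite_toSet fun n _ => h1 n).subset ?_
  intro p hp
  refine Set.mem_biUnion (x := p.2.length) ?_ ⟨hp, rfl⟩
  rw [Finset.mem_coe, Finset.mem_range]
  exact famSet_len h hp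

/-- FAM for a finite family of homogeneous nonzero rows. -/
theorem famOf (dg : J → D) (m : Matrix J J (MonoidAlgebra k Γ)) (u : G → J → MonoidAlgebra k Γ)
    (δ : G → D) (hu : ∀ g, Spt dg {δ g} (u g)) (hne : ∀ g, u g ≠ 0) (d : ℕ)
    (h : ∀ l : List D, l.length = d → ∀ g, itc dg m l (u g) = 0) :
    ∃ (Λ : Type) (_ : Fintype Λ) (_ : DecidableEq Λ) (z : Matrix Λ J (MonoidAlgebra k Γ))
      (N : Matrix Λ Λ ℤ) (c : Λ → D) (a : G → Λ), (∀ l, Spt dg {c l} (z l)) ∧
      (∀ l, ∃ (j : J) (h : Γ), c l = h • dg j) ∧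
      z * m = N.map (Int.castRingHom (MonoidAlgebra k Γ)) * z ∧ IsNilpotent N ∧
      ChainNil c (N.map (Int.castRingHom (MonoidAlgebra k Γ))) d ∧
      (∀ g, z (a g) = u g) ∧ (∀ l, ∃ (g : G) (L : List D), z l = itc dg m L (u g)) := by
  classical
  have hfin := famSet_finite h
  obtain ⟨n, ⟨e⟩⟩ : ∃ n, Nonempty (famSet dg m u ≃ Fin n) := by
    have : Finite (famSet dg m u) := hfin
    obtain ⟨n, h⟩ := Finite.exists_equiv_fin (famSet dg m u)
    exact ⟨n, h⟩
  let τ : Fin n → G × List D := fun i => (e.symm i).1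
  have hτ : ∀ i, τ i ∈ famSet dg m u := fun i => (e.symm i).2
  have hτi : ∀ i i', τ i = τ i' → i = i' := fun i i' h =>
    e.symm.injective (Subtype.ext h)
  have hτs : ∀ p ∈ famSet dg m u, ∃ i, τ i = p := fun p hp =>
    ⟨e ⟨p, hp⟩, by show (e.symm (e ⟨p, hp⟩)).1 = p; rw [Equiv.symm_apply_apply]⟩
  let z : Matrix (Fin n) J (MonoidAlgebra k Γ) := fun i => itc dg m (τ i).2 (u (τ i).1)
  let c : Fin n → D := fun i => ((τ i).2.getLast?).getD (δ (τ i).1)
  let N : Matrix (Fin n) (Fin n) ℤ := fun i i' =>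
    if (τ i').1 = (τ i).1 ∧ ∃ c', (τ i').2 = (τ i).2 ++ [c'] then 1 else 0
  have hc : ∀ i, Spt dg {c i} (z i) := by
    intro i
    rcases List.eq_nil_or_concat' (τ i).2 with h1 | ⟨l₀, c₀, h1⟩
    · have h2 : c i = δ (τ i).1 := by
        show ((τ i).2.getLast?).getD (δ (τ i).1) = _
        rw [h1]; rfl
      have h3 : z i = u (τ i).1 := by
        show itc dg m (τ i).2 _ = _
        rw [h1, itc_nil]
      rw [h2, h3]
      exact hu _
    · have h2 : c i = c₀ := by
        show ((τ i).2.getLast?).getD (δ (τ i).1) = _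
        rw [h1, List.getLast?_append]
        rfl
      have h3 : z i = itc dg m (l₀ ++ [c₀]) (u (τ i).1) := by
        show itc dg m (τ i).2 _ = _
        rw [h1]
      rw [h2, h3]
      exact itc_spt dg m l₀ c₀ _
  choose a ha using fun g : G => hτs (g, ([] : List D)) (hne g)
  have hza : ∀ g, z (a g) = u g := by
    intro j
    show itc dg m (τ (a j)).2 (u (τ (a j)).1) = _
    rw [ha j]
    rfl
  have hNne : ∀ i i', N i i' ≠ 0 → (τ i').2.length = (τ i).2.length + 1 := by
    intro i i' h4
    have h5 : (τ i').1 = (τ i).1 ∧ ∃ c', (τ i').2 = (τ i).2 ++ [c'] := by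
      by_contra hcon
      exact h4 (if_neg hcon)
    obtain ⟨_, c', h6⟩ := h5
    rw [h6, List.length_append, List.length_singleton]
  refine ⟨Fin n, inferInstance, inferInstance, z, N, c, a, hc, ?_, ?_, ?_, ?_, hza,
    fun l => ⟨(τ l).1, (τ l).2, rfl⟩⟩
  · -- degrees
    intro i
    have h2 : z i ≠ 0 := hτ i
    obtain ⟨j, hj⟩ := Function.ne_iff.1 h2
    obtain ⟨h, hh⟩ : ∃ h, (z i j).coeff h ≠ 0 := by
      by_contra hcon
      push Not at hcon
      refine hj ?_
      ext g
      exact hcon g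
    exact ⟨j, h, (hc i j h hh).symm⟩
  · -- the relation
    have hNeq : ∀ (i i' : Fin n), (N.map (Int.castRingHom (MonoidAlgebra k Γ))) i i' =
        if (τ i').1 = (τ i).1 ∧ ∃ c', (τ i').2 = (τ i).2 ++ [c'] then 1 else 0 := by
      intro i i'
      rw [Matrix.map_apply]
      show (Int.castRingHom (MonoidAlgebra k Γ)) (if _ then 1 else 0) = _
      split_ifs <;> simp
    funext i
    have hL : (z * m) i = z i ᵥ* m := rfl
    have hR : (N.map (Int.castRingHom (MonoidAlgebra k Γ)) * z) i = ∑ i',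
        if (τ i').1 = (τ i).1 ∧ ∃ c', (τ i').2 = (τ i).2 ++ [c'] then z i' else 0 := by
      funext j
      rw [Matrix.mul_apply, Finset.sum_apply]
      refine Finset.sum_congr rfl fun i' _ => ?_
      rw [hNeq]
      split_ifs
      · rw [one_mul]
      · rw [zero_mul]; rfl
    rw [hL, hR]
    refine eq_of_res (dg := dg) fun c₁ => ?_
    rw [map_sum]
    have hlhs : res dg {c₁} (z i ᵥ* m) = itc dg m ((τ i).2 ++ [c₁]) (u (τ i).1) := by
      rw [itc_append, itc_cons, itc_nil]
    rw [hlhs]
    -- each term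
    have hterm : ∀ i', res dg {c₁} (if (τ i').1 = (τ i).1 ∧ ∃ c', (τ i').2 = (τ i).2 ++ [c']
        then z i' else 0) = if τ i' = ((τ i).1, (τ i).2 ++ [c₁]) then z i' else 0 := by
      intro i'
      by_cases h1 : (τ i').1 = (τ i).1 ∧ ∃ c', (τ i').2 = (τ i).2 ++ [c']
      · rw [if_pos h1]
        obtain ⟨h2, c', h3⟩ := h1
        have hci : c i' = c' := by
          show ((τ i').2.getLast?).getD (δ (τ i').1) = _
          rw [h3, List.getLast?_append]
          rfl
        have hsp := hc i'
        rw [hci] at hsp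
        by_cases h4 : c' = c₁
        · subst h4
          rw [if_pos (show τ i' = ((τ i).1, (τ i).2 ++ [c']) from Prod.ext h2 h3), hsp.res_eq]
        · rw [if_neg, hsp.res_eq_zero]
          · rintro d' hd' hd''
            have e1 : d' = c' := hd'
            have e2 : d' = c₁ := hd''
            exact h4 (e1.symm.trans e2)
          · intro h5
            have h6 : (τ i').2 = (τ i).2 ++ [c₁] := by rw [h5]
            rw [h3] at h6
            have h7 := List.append_cancel_left h6
            exact h4 (by simpa using h7)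
      · rw [if_neg h1, map_zero, if_neg]
        intro h5
        exact h1 ⟨by rw [h5], c₁, by rw [h5]⟩
    rw [Finset.sum_congr rfl fun i' _ => hterm i']
    by_cases h1 : itc dg m ((τ i).2 ++ [c₁]) (u (τ i).1) = 0
    · rw [h1]
      symm
      refine Finset.sum_eq_zero fun i' _ => ?_
      split_ifs with h2
      · show itc dg m (τ i').2 (u (τ i').1) = 0
        rw [h2]
        exact h1
      · rfl
    · obtain ⟨i₁, hi₁⟩ := hτs ((τ i).1, (τ i).2 ++ [c₁]) h1
      rw [Finset.sum_eq_single i₁]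
      · rw [if_pos hi₁]
        show _ = itc dg m (τ i₁).2 (u (τ i₁).1)
        rw [hi₁]
      · intro i' _ hi'
        rw [if_neg]
        intro h2
        exact hi' (hτi _ _ (h2.trans hi₁.symm))
      · intro hc'
        exact absurd (Finset.mem_univ _) hc'
  · -- nilpotency
    have h1 : ∀ (r : ℕ) (i i' : Fin n), (N ^ r) i i' ≠ 0 →
        (τ i').2.length = (τ i).2.length + r := by
      intro r
      induction r with
      | zero =>
        intro i i' h
        rw [pow_zero] at h
        by_cases hii : i = i'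
        · subst hii; rw [add_zero]
        · rw [Matrix.one_apply_ne hii] at h
          exact absurd rfl h
      | succ r ih =>
        intro i i' h
        rw [pow_succ, Matrix.mul_apply] at h
        obtain ⟨i₁, _, h2⟩ := Finset.exists_ne_zero_of_sum_ne_zero h
        have h3 := ih i i₁ (left_ne_zero_of_mul h2)
        have h4 := hNne i₁ i' (right_ne_zero_of_mul h2)
        omega
    refine ⟨d, ?_⟩
    ext1 i i'
    by_contra h2
    have h3 := h1 d i i' h2
    have h4 := famSet_len h (hτ i')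
    omega
  · -- chain nilpotency
    refine chainNil_of_depth c _ (fun i => (τ i).2.length) d (fun i i' hii => ?_)
      (fun i => famSet_len h (hτ i))
    have h1 : N i i' ≠ 0 := by
      intro h0
      apply hii
      rw [Matrix.map_apply, h0, map_zero]
    have h2 := hNne i i' h1
    show (τ i).2.length < (τ i').2.length
    omega

end fam

theorem fg_aux {k Γ D : Type u} [Ring k] [Group Γ] [MulAction Γ D] {J : Type} [Fintype J]
    (dg : J → D) (m : Matrix J J (MonoidAlgebra k Γ))
    (Y : Submodule (MonoidAlgebra k Γ) (J → MonoidAlgebra k Γ))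
    (hgr : ∀ (c : D), ∀ x ∈ Y, res dg {c} x ∈ Y) (hst : ∀ x ∈ Y, x ᵥ* m ∈ Y) (L : List D) :
    ∀ x ∈ Y, itc dg m L x ∈ Y := by
  induction L with
  | nil => intro x hx; exact hx
  | cons a L ih => intro x hx; exact ih _ (hgr a _ (hst x hx))

/-- FG. -/
theorem fg (k Γ D : Type u) [Ring k] [Group Γ] [MulAction Γ D] (J : Type) [Fintype J]
    [DecidableEq J] (dg : J → D) (m : Matrix J J (MonoidAlgebra k Γ)) (d : ℕ)
    (Y : Submodule (MonoidAlgebra k Γ) (J → MonoidAlgebra k Γ))
    (hgr : ∀ (c : D), ∀ x ∈ Y, res dg {c} x ∈ Y) (hst : ∀ x ∈ Y, x ᵥ* m ∈ Y)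
    (hch : ∀ l : List D, l.length = d → ∀ x ∈ Y, itc dg m l x = 0) (hfg : Y.FG) :
    ∃ (Λ : Type) (_ : Fintype Λ) (_ : DecidableEq Λ) (z : Matrix Λ J (MonoidAlgebra k Γ))
      (N : Matrix Λ Λ ℤ) (c : Λ → D) (e : ℕ), (∀ l, Spt dg {c l} (z l)) ∧
      (∀ l, ∃ (j : J) (h : Γ), c l = h • dg j) ∧
      z * m = N.map (Int.castRingHom (MonoidAlgebra k Γ)) * z ∧ IsNilpotent N ∧
      ChainNil c (N.map (Int.castRingHom (MonoidAlgebra k Γ))) e ∧
      LinearMap.range z.vecMulLinear = Y := by
  classical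
  obtain ⟨S, hS⟩ := hfg
  choose F hF using fun x : J → MonoidAlgebra k Γ => exists_degrees dg x
  -- the set of nonzero components
  let T : Set ((J → MonoidAlgebra k Γ) × D) :=
    {p | p.1 ∈ S ∧ p.2 ∈ F p.1 ∧ res dg {p.2} p.1 ≠ 0}
  have hT : T.Finite := by
    refine (Set.Finite.biUnion S.finite_toSet fun x _ =>
      (F x).finite_toSet.image fun c => (x, c)).subset ?_
    rintro ⟨x, c⟩ ⟨h1, h2, -⟩
    exact Set.mem_biUnion h1 ⟨c, h2, rfl⟩
  obtain ⟨n, ⟨e⟩⟩ : ∃ n, Nonempty (T ≃ Fin n) := by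
    have : Finite T := hT
    obtain ⟨n, h⟩ := Finite.exists_equiv_fin T
    exact ⟨n, h⟩
  let u : Fin n → J → MonoidAlgebra k Γ := fun i => res dg {(e.symm i).1.2} (e.symm i).1.1
  have hSY : ∀ x ∈ S, x ∈ Y := fun x hx => hS ▸ Submodule.subset_span hx
  have huY : ∀ i, u i ∈ Y := fun i => hgr _ _ (hSY _ (e.symm i).2.1)
  obtain ⟨Λ, i1, i2, z, N, c, a, h1, h2, h3, h4, h5, h6, h7⟩ := famOf dg m u
    (fun i => (e.symm i).1.2) (fun i => spt_res _ _ _) (fun i => (e.symm i).2.2.2) d
    (fun l hl i => hch l hl _ (huY i))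
  refine ⟨Λ, i1, i2, z, N, c, d, h1, h2, h3, h4, h5, ?_⟩
  rw [range_vecMulLinear]
  refine le_antisymm ?_ ?_
  · rw [Submodule.span_le]
    rintro _ ⟨l, rfl⟩
    obtain ⟨g, L, h8⟩ := h7 l
    show z l ∈ Y
    rw [h8]
    exact fg_aux dg m Y hgr hst L _ (huY g)
  · rw [← hS, Submodule.span_le]
    intro x hx
    show x ∈ Submodule.span _ _
    rw [← (hF x).sum_res]
    refine Submodule.sum_mem _ fun c' hc' => ?_
    by_cases h0 : res dg {c'} x = 0
    · rw [h0]; exact Submodule.zero_mem _
    · have h8 : ((x, c') : (J → MonoidAlgebra k Γ) × D) ∈ T := ⟨hx, hc', h0⟩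
      have h9 : z (a (e ⟨(x, c'), h8⟩)) = res dg {c'} x := by
        rw [h6]
        show res dg {(e.symm (e ⟨(x, c'), h8⟩)).1.2} (e.symm (e ⟨(x, c'), h8⟩)).1.1 = _
        rw [Equiv.symm_apply_apply]
      rw [← h9]
      exact Submodule.subset_span ⟨_, rfl⟩

end Pool.Agent.NegK.TT.H47
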